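import Pool.Agent.H81.AV.Loop5
import Pool.Agent.H89.AVB.Final4

/-!
# Spheres of even dimension at scales between `arccos (1 / √3)` and `π / 3`
-/

namespace Pool.Agent.H81.AV

open Pool.Agent.H73.Avr hiding cl
open Pool.Agent.H71.AV Pool.Agent.H70.AV
open Pool.Agent.H89.AVB

/-- the sign pattern of the change of the sign of the coordinate `j` -/
def E5 (j : ℕ) : Fin 3 → ℤˣ := fun i => if i.val = j then -1 else 1

theorem sg2_E5 (j : Fin 3) (y : Sph 2) : sg2 (E5 j.val) y = flip j y := by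
  apply Subtype.ext
  ext i
  rw [sg2_apply, flip_apply]
  unfold E5 sr
  by_cases h : i = j
  · rw [if_pos (by rw [h]), if_pos h]
    norm_num
  · rw [if_neg (fun h2 => h (Fin.ext h2)), if_neg h]
    norm_num

/-! ## The swap of the coordinates `1` and `2` in all dimensions -/

/-- the linear swap -/
noncomputable def lswn (m : ℕ) (x : EuclideanSpace ℝ (Fin (2 * m + 2 + 1))) :
    EuclideanSpace ℝ (Fin (2 * m + 2 + 1)) :=
  WithLp.toLp 2 (fun i => x (Equiv.swap (i1 m) (i2 m) i))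

theorem inner_lswn (m : ℕ) (x y : EuclideanSpace ℝ (Fin (2 * m + 2 + 1))) :
    inner ℝ (lswn m x) (lswn m y) = inner ℝ x y := by
  rw [PiLp.inner_apply, PiLp.inner_apply]
  exact Equiv.sum_comp (Equiv.swap (i1 m) (i2 m)) (fun i => inner ℝ (x i) (y i))

theorem norm_lswn (m : ℕ) (x : EuclideanSpace ℝ (Fin (2 * m + 2 + 1))) : ‖lswn m x‖ = ‖x‖ := by
  have h1 := inner_lswn m x x
  rw [real_inner_self_eq_norm_sq, real_inner_self_eq_norm_sq] at h1
  exact (sq_eq_sq₀ (norm_nonneg _) (norm_nonneg _)).1 h1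

/-- the swap -/
noncomputable def swn (m : ℕ) (x : Sph (2 * m + 2)) : Sph (2 * m + 2) :=
  ⟨lswn m x.1, by rw [mem_sphere_zero_iff_norm, norm_lswn, mem_sphere_zero_iff_norm.1 x.2]⟩

theorem swn_apply (m : ℕ) (x : Sph (2 * m + 2)) (i : Fin (2 * m + 2 + 1)) :
    (swn m x).1 i = x.1 (Equiv.swap (i1 m) (i2 m) i) := rfl

theorem swn_swn (m : ℕ) (x : Sph (2 * m + 2)) : swn m (swn m x) = x := by
  apply Subtype.ext
  ext i
  rw [swn_apply, swn_apply, Equiv.swap_apply_self]

theorem swn_injective (m : ℕ) : Function.Injective (swn m) := fun x y h => by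
  rw [← swn_swn m x, h, swn_swn]

theorem geo_swn (m : ℕ) (x y : Sph (2 * m + 2)) :
    geo (2 * m + 2) (swn m x) (swn m y) = geo (2 * m + 2) x y := by
  unfold geo InnerProductGeometry.angle
  show Real.arccos (inner ℝ (lswn m x.1) (lswn m y.1) / (‖lswn m x.1‖ * ‖lswn m y.1‖)) = _
  rw [inner_lswn, norm_lswn, norm_lswn]

theorem idx (m : ℕ) (i : Fin (2 * m + 2 + 1)) :
    i = i0 m ∨ i = i1 m ∨ i = i2 m ∨ 3 ≤ i.val := by
  rcases Nat.lt_or_ge i.val 3 with h | h
  · have : i.val = 0 ∨ i.val = 1 ∨ i.val = 2 := by omega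
    rcases this with h | h | h
    · exact Or.inl (Fin.ext h)
    · exact Or.inr (Or.inl (Fin.ext h))
    · exact Or.inr (Or.inr (Or.inl (Fin.ext h)))
  · exact Or.inr (Or.inr (Or.inr h))

theorem sw0 (m : ℕ) : Equiv.swap (i1 m) (i2 m) (i0 m) = i0 m :=
  Equiv.swap_apply_of_ne_of_ne (by unfold i0 i1; simp) (by unfold i0 i2; simp)

theorem sw1 (m : ℕ) : Equiv.swap (i1 m) (i2 m) (i1 m) = i2 m := Equiv.swap_apply_left _ _

theorem sw2 (m : ℕ) : Equiv.swap (i1 m) (i2 m) (i2 m) = i1 m := Equiv.swap_apply_right _ _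

theorem sw3 (m : ℕ) {i : Fin (2 * m + 2 + 1)} (h : 3 ≤ i.val) :
    Equiv.swap (i1 m) (i2 m) i = i := by
  refine Equiv.swap_apply_of_ne_of_ne ?_ ?_
  · rintro rfl
    have : (i1 m).val = 1 := rfl
    omega
  · rintro rfl
    have : (i2 m).val = 2 := rfl
    omega

theorem swn_inc (m : ℕ) (y : Sph 2) : swn m (H71.SM.inc m y) = H71.SM.inc m (swp y) := by
  have e0 : (Equiv.swap (1 : Fin 3) 2) 0 = 0 := by decide
  have e1 : (Equiv.swap (1 : Fin 3) 2) 1 = 2 := by decide
  have e2 : (Equiv.swap (1 : Fin 3) 2) 2 = 1 := by decide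
  apply Subtype.ext
  ext i
  rw [swn_apply]
  rcases idx m i with rfl | rfl | rfl | h
  · rw [sw0, inc_i0, inc_i0, swp_apply, e0]
  · rw [sw1, inc_i2, inc_i1, swp_apply, e1]
  · rw [sw2, inc_i1, inc_i2, swp_apply, e2]
  · rw [sw3 m h, H71.SM.inc_apply_ge m _ i h, H71.SM.inc_apply_ge m _ i h]

theorem swn_rho (m : ℕ) (θ : ℝ) (x : Sph (2 * m + 2)) :
    swn m (H71.SM.rho m θ x) = H71.SM.rho m θ (swn m x) := by
  have l0 : (i0 m).val < 3 := by show 0 < 3; norm_num
  have l1 : (i1 m).val < 3 := by show 1 < 3; norm_num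
  have l2 : (i2 m).val < 3 := by show 2 < 3; norm_num
  apply Subtype.ext
  ext i
  rw [swn_apply]
  rcases idx m i with rfl | rfl | rfl | h
  · rw [sw0, rho_apply', rho_apply', dif_pos l0, dif_pos l0, swn_apply, sw0]
  · rw [sw1, rho_apply', rho_apply', dif_pos l1, dif_pos l2, swn_apply, sw1]
  · rw [sw2, rho_apply', rho_apply', dif_pos l2, dif_pos l1, swn_apply, sw2]
  · have h3 : ¬ i.val < 3 := by omega
    rw [sw3 m h, rho_apply', rho_apply', dif_neg h3, dif_neg h3]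
    by_cases ho : i.val % 2 = 1
    · rw [dif_pos ho, dif_pos ho, swn_apply, swn_apply, sw3 m h, sw3 m (by show 3 ≤ i.val + 1; omega)]
    · rw [dif_neg ho, dif_neg ho, swn_apply, swn_apply, sw3 m h, sw3 m (by show 3 ≤ i.val - 1; omega)]

/-- sign changes and the swap -/
theorem sgn_swn (m : ℕ) (e f : Fin 3 → ℤˣ) (h0 : e 0 = f 0) (h1 : e 1 = f 2) (h2 : e 2 = f 1)
    (x : Sph (2 * m + 2)) : sgn m e (swn m x) = swn m (sgn m f x) := by
  have l0 : (i0 m).val < 3 := by show 0 < 3; norm_num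
  have l1 : (i1 m).val < 3 := by show 1 < 3; norm_num
  have l2 : (i2 m).val < 3 := by show 2 < 3; norm_num
  apply Subtype.ext
  ext i
  rw [swn_apply, sgn_apply, swn_apply]
  rcases idx m i with rfl | rfl | rfl | h
  · rw [sw0, sgn_apply, dif_pos l0, dif_pos l0]
    show sr (e 0) * _ = sr (f 0) * _
    rw [h0]
  · rw [sw1, sgn_apply, dif_pos l1, dif_pos l2]
    show sr (e 1) * _ = sr (f 2) * _
    rw [h1]
  · rw [sw2, sgn_apply, dif_pos l2, dif_pos l1]
    show sr (e 2) * _ = sr (f 1) * _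
    rw [h2]
  · have h3 : ¬ i.val < 3 := by omega
    rw [sw3 m h, sgn_apply, dif_neg h3, dif_neg h3]

/-! ## The tower -/

/-- rotations, three sign changes, the swap -/
noncomputable def tw5 (m k : ℕ) (i : ℕ) : Sph (2 * m + 2) → Sph (2 * m + 2) :=
  if i < k + 4 then tw m k E5 i else swn m

theorem tw5_lt {m k i : ℕ} (h : i < k + 4) : tw5 m k i = tw m k E5 i := if_pos h

theorem tw5_last (m k : ℕ) : tw5 m k (k + 4) = swn m := if_neg (by omega)

theorem tower5_ok (m k : ℕ) : H71.SM.TowerOK (2 * m + 2) (k + 5) (tw5 m k) where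
  iso := by
    intro i hi x y
    rcases Nat.lt_or_ge i (k + 4) with h | h
    · rw [tw5_lt h]
      exact (tower_ok m k 3 E5).iso i (by omega) x y
    · have : i = k + 4 := by omega
      subst this
      rw [tw5_last]
      exact geo_swn m x y
  nrm := by
    intro i hi j hj
    rcases Nat.lt_or_ge i (k + 4) with h | h
    · obtain ⟨k', hk', h'⟩ := (tower_ok m k 3 E5).nrm i (by omega) j hj
      refine ⟨k', hk', fun x => ?_⟩
      rw [tw5_lt h, tw5_lt (by omega : j < k + 4), tw5_lt (by omega : k' < k + 4)]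
      exact h' x
    · have : i = k + 4 := by omega
      subst this
      rw [tw5_last]
      rcases Nat.lt_or_ge k j with h1 | h1
      · have hj3 : j = k + 1 + 0 ∨ j = k + 1 + 1 ∨ j = k + 1 + 2 := by omega
        rcases hj3 with rfl | rfl | rfl
        · refine ⟨k + 1 + 0, by omega, fun x => ?_⟩
          rw [tw5_lt (by omega), tw_gt]
          exact sgn_swn m _ _ (by decide) (by decide) (by decide) x
        · refine ⟨k + 1 + 2, by omega, fun x => ?_⟩
          rw [tw5_lt (by omega), tw5_lt (by omega), tw_gt, tw_gt]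
          exact sgn_swn m _ _ (by decide) (by decide) (by decide) x
        · refine ⟨k + 1 + 1, by omega, fun x => ?_⟩
          rw [tw5_lt (by omega), tw5_lt (by omega), tw_gt, tw_gt]
          exact sgn_swn m _ _ (by decide) (by decide) (by decide) x
      · refine ⟨j, hj, fun x => ?_⟩
        rw [tw5_lt (by omega), tw_le h1, swn_rho]
  sq := by
    intro i hi
    rcases Nat.lt_or_ge i (k + 4) with h | h
    · rcases (tower_ok m k 3 E5).sq i (by omega) with h1 | ⟨j, hj, h1⟩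
      · left
        intro x
        rw [tw5_lt h]
        exact h1 x
      · right
        refine ⟨j, hj, fun x => ?_⟩
        rw [tw5_lt h, tw5_lt (by omega : j < k + 4)]
        exact h1 x
    · have : i = k + 4 := by omega
      subst this
      left
      intro x
      rw [tw5_last, swn_swn]

theorem push_Inv5 {m k : ℕ} {r : ℝ} (ν : AVR (geo 2) r)
    (hν : ∀ j x, ν.w (flip j x) = ν.w x) (hsw : ∀ x, ν.w (swp x) = ν.w x) :
    H71.SM.Inv (s := k + 5) (tw5 m k) (H71.SM.push m ν) := by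
  intro i hi x
  rcases Nat.lt_or_ge i (k + 4) with h | h
  · rw [tw5_lt h]
    refine push_Inv (q := 3) (E := E5) ν ?_ i (by omega) x
    intro j hj y
    have h1 := sg2_E5 ⟨j, hj⟩ y
    rw [show E5 j = E5 (⟨j, hj⟩ : Fin 3).val from rfl, h1]
    exact hν _ y
  · have : i = k + 4 := by omega
    subst this
    rw [tw5_last]
    exact push_inv ν _ (swn_injective m) swp swp_swp (swn_inc m) hsw rfl x

theorem exists_nu5 {m k : ℕ} {r : ℝ} (hk : Real.pi / 2 ^ k < r)
    (μ : AVR (geo (2 * m + 2)) r) (hμ : H71.SM.Inv (s := k + 5) (tw5 m k) μ) :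
    ∃ ν : AVR (geo 2) r, H71.SM.push m ν = μ ∧ (∀ j x, ν.w (flip j x) = ν.w x) ∧
      ∀ x, ν.w (swp x) = ν.w x := by
  obtain ⟨ν, hν, h1⟩ := exists_nu (m := m) (k := k) (q := 3) (E := E5) hk μ (by
    intro i hi x
    have h2 := hμ i (by omega) x
    rw [tw5_lt (by omega)] at h2
    exact h2)
  refine ⟨ν, hν, fun j x => ?_, fun x => ?_⟩
  · rw [← sg2_E5]
    exact h1 j.val j.isLt x
  · have h2 := hμ (k + 4) (by omega) (H71.SM.inc m x)
    rw [tw5_last, swn_inc, ← hν, H71.SM.push_apply, H71.SM.push_apply] at h2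
    exact h2

/-- the loop criterion for the group of all sign changes and the swap -/
theorem even_loop5 (m : ℕ) {r : ℝ} (hr : 0 < r) (hc : ContractibleSpace (AVR (geo (2 * m + 2)) r))
    (t h : AVR (geo (2 * m + 2)) r → ℝ) (ht : Continuous t) (hh : Continuous h)
    (hne : ∀ ν : AVR (geo 2) r, (∀ j x, ν.w (flip j x) = ν.w x) → (∀ x, ν.w (swp x) = ν.w x) →
      t (H71.SM.push m ν) = 0 → h (H71.SM.push m ν) ≠ 0)
    (pth : Fin 4 → ℝ → AVR (geo 2) r) (hpc : ∀ i, Continuous (pth i))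
    (hpf : ∀ i u j x, (pth i u).w (flip j x) = (pth i u).w x)
    (hps : ∀ i u x, (pth i u).w (swp x) = (pth i u).w x)
    (hglue : ∀ i, pth i 1 = pth (i + 1) 0) (h0 : ∀ u, 0 < h (H71.SM.push m (pth 0 u)))
    (hs : |h (H71.SM.push m (pth 0 0))| < t (H71.SM.push m (pth 0 0)))
    (he : |h (H71.SM.push m (pth 0 1))| < -t (H71.SM.push m (pth 0 1)))
    (hl : ∀ i, i ≠ 0 → ∀ u, h (H71.SM.push m (pth i u)) < |t (H71.SM.push m (pth i u))|) :
    False := by
  obtain ⟨k, hk⟩ := exists_k hr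
  refine H71.SM.avr_loop hr hc (k + 5) (tw5 m k) (tower5_ok m k) t h ht hh ?_
    (fun i u => H71.SM.push m (pth i u)) (fun i => (H71.SM.push_continuous m).comp (hpc i))
    (fun i u => push_Inv5 _ (hpf i u) (hps i u)) (fun i => by rw [hglue]) h0 hs he hl
  intro μ hμ
  obtain ⟨ν, rfl, h1, h2⟩ := exists_nu5 hk μ hμ
  exact hne ν h1 h2

/-! ## The functions in all dimensions -/

/-- `q5` in the first three coordinates -/
noncomputable def q5n (m : ℕ) (x : Sph (2 * m + 2)) : ℝ :=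
  x.1 (i0 m) ^ 2 * x.1 (i1 m) ^ 2 * x.1 (i2 m) ^ 2

/-- `t5` in the first three coordinates -/
noncomputable def t5n (m : ℕ) (x : Sph (2 * m + 2)) : ℝ := x.1 (i0 m) ^ 2 - 1 / 3

theorem continuous_t5n (m : ℕ) {r : ℝ} :
    Continuous fun μ : AVR (geo (2 * m + 2)) r => ri (t5n m) μ.w := by
  refine continuous_ri (L := 2) (by norm_num) fun x y => ?_
  have h := rmon_lipschitz (n := 2 * m + 2) ![i0 m, i0 m] x y
  unfold rmon at h
  rw [Fin.prod_univ_two, Fin.prod_univ_two] at h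
  simp only [Matrix.cons_val_zero, Matrix.cons_val_one] at h
  unfold t5n
  have e : x.1 (i0 m) ^ 2 - 1 / 3 - (y.1 (i0 m) ^ 2 - 1 / 3) =
      x.1 (i0 m) * x.1 (i0 m) - y.1 (i0 m) * y.1 (i0 m) := by ring
  rw [e]
  exact_mod_cast h

theorem continuous_q5n (m : ℕ) {r : ℝ} :
    Continuous fun μ : AVR (geo (2 * m + 2)) r => ri (q5n m) μ.w := by
  refine continuous_ri (L := 6) (by norm_num) fun x y => ?_
  have h := rmon_lipschitz (n := 2 * m + 2) ![i0 m, i0 m, i1 m, i1 m, i2 m, i2 m] x y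
  unfold rmon at h
  rw [Fin.prod_univ_six, Fin.prod_univ_six] at h
  have e : ∀ z : Sph (2 * m + 2), z.1 (![i0 m, i0 m, i1 m, i1 m, i2 m, i2 m] 0) *
      z.1 (![i0 m, i0 m, i1 m, i1 m, i2 m, i2 m] 1) *
      z.1 (![i0 m, i0 m, i1 m, i1 m, i2 m, i2 m] 2) *
      z.1 (![i0 m, i0 m, i1 m, i1 m, i2 m, i2 m] 3) *
      z.1 (![i0 m, i0 m, i1 m, i1 m, i2 m, i2 m] 4) *
      z.1 (![i0 m, i0 m, i1 m, i1 m, i2 m, i2 m] 5) =
      z.1 (i0 m) ^ 2 * z.1 (i1 m) ^ 2 * z.1 (i2 m) ^ 2 := by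
    intro z
    show z.1 (i0 m) * z.1 (i0 m) * z.1 (i1 m) * z.1 (i1 m) * z.1 (i2 m) * z.1 (i2 m) = _
    ring
  rw [e, e] at h
  unfold q5n
  exact_mod_cast h

theorem ri_q5n (m : ℕ) {r : ℝ} (ν : AVR (geo 2) r) :
    ri (q5n m) (H71.SM.push m ν).w = ri q5 ν.w := by
  have h : (fun y => q5n m (H71.SM.inc m y)) = q5 := by
    funext y
    unfold q5n q5
    rw [inc_i0, inc_i1, inc_i2]
  rw [H71.SM.ri_push, h]

theorem ri_t5n (m : ℕ) {r : ℝ} (ν : AVR (geo 2) r) :
    ri (t5n m) (H71.SM.push m ν).w = ri t5 ν.w := by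
  have h : (fun y => t5n m (H71.SM.inc m y)) = t5 := by
    funext y
    unfold t5n t5
    rw [inc_i0]
  rw [H71.SM.ri_push, h]

private theorem ri_swp {r : ℝ} (ν : AVR (geo 2) r) (hsw : ∀ x, ν.w (swp x) = ν.w x) :
    ri (fun x => x.1 1 ^ 2) ν.w = ri (fun x => x.1 2 ^ 2) ν.w := by
  have h1 : ν.w.mapDomain swp = ν.w := by
    ext y
    conv_lhs => rw [← swp_swp y]
    rw [Finsupp.mapDomain_apply swp_injective, hsw]
  have e1 : (Equiv.swap (1 : Fin 3) 2) 1 = 2 := by decide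
  have h2 : ri (fun x => x.1 1 ^ 2) (ν.w.mapDomain swp) =
      ri (fun x => (swp x).1 1 ^ 2) ν.w := by
    unfold ri
    rw [Finsupp.sum_mapDomain_index]
    · intro b; simp
    · intro b m1 m2; ring
  rw [h1] at h2
  rw [h2]
  have h3 : (fun x : Sph 2 => (swp x).1 1 ^ 2) = fun x => x.1 2 ^ 2 := by
    funext x
    rw [swp_apply, e1]
  rw [h3]

/-- the window from `arccos (1 / √3)` to `π / 3` for all even dimensions -/
theorem not_contractible_even_low (m : ℕ) {r : ℝ} (h1 : Real.arccos (1 / √3) < r)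
    (h2 : r ≤ Real.pi / 3) : ¬ ContractibleSpace (AVR (geo (2 * m + 2)) r) := by
  intro hcon
  have hs3 : (0 : ℝ) < √3 := Real.sqrt_pos.2 (by norm_num)
  have hs3' : (1 : ℝ) ≤ √3 := Real.one_le_sqrt.2 (by norm_num)
  have hr0 : 0 < r := lt_of_le_of_lt (Real.arccos_nonneg _) h1
  have hrpi : r ≤ Real.pi := h2.trans (by linarith [Real.pi_pos])
  have hc0 : 1 / 2 ≤ Real.cos r := by
    rw [← Real.cos_pi_div_three]
    exact Real.cos_le_cos_of_nonneg_of_le_pi hr0.le (by linarith [Real.pi_pos]) h2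
  have hc1 : Real.cos r < 1 / √3 := by
    have h3 := Real.cos_lt_cos_of_nonneg_of_le_pi (Real.arccos_nonneg _) hrpi h1
    rwa [Real.cos_arccos (by have : (0 : ℝ) ≤ 1 / √3 := by positivity
                             linarith) (by rw [div_le_one hs3]; exact hs3')] at h3
  have hc : 3 * Real.cos r ^ 2 < 1 := by
    have h3 : Real.cos r * √3 < 1 := by rwa [lt_div_iff₀ hs3] at hc1
    have h4 : √3 ^ 2 = 3 := Real.sq_sqrt (by norm_num)
    have h5 : 0 < Real.cos r * √3 := mul_pos (by linarith) hs3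
    have h6 : (Real.cos r * √3) ^ 2 < 1 := by nlinarith
    rw [mul_pow, h4] at h6
    linarith
  obtain ⟨k, hk⟩ := exists_k hr0
  obtain ⟨pth, hpc, hpf, hps, hglue, g0, gA, gB, grest⟩ := exists_loop5 hr0.le hrpi hc0 hc
  refine H71.SM.avr_loop hr0 hcon (k + 5) (tw5 m k) (tower5_ok m k)
    (fun μ => ri (t5n m) μ.w) (fun μ => ri (q5n m) μ.w - e5 (Real.cos r))
    (continuous_t5n m) ((continuous_q5n m).sub continuous_const) ?_
    (fun i u => H71.SM.push m (pth i u)) (fun i => (H71.SM.push_continuous m).comp (hpc i))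
    (fun i u => push_Inv5 _ (hpf i u) (hps i u)) (fun i => by rw [hglue]) ?_ ?_ ?_ ?_
  · intro μ hμ ht hh
    obtain ⟨ν, rfl, hf, hs⟩ := exists_nu5 hk μ hμ
    simp only [ri_t5n, ri_q5n] at ht hh
    exact key5' hr0.le (by linarith) hc ν hf (ri_swp ν hs) ht (by linarith)
  · intro u
    show 0 < ri (q5n m) (H71.SM.push m (pth 0 u)).w - e5 (Real.cos r)
    rw [ri_q5n]
    linarith [g0 u]
  · show |ri (q5n m) (H71.SM.push m (pth 0 0)).w - e5 (Real.cos r)| <
      ri (t5n m) (H71.SM.push m (pth 0 0)).w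
    rw [ri_q5n, ri_t5n]
    exact gA
  · show |ri (q5n m) (H71.SM.push m (pth 0 1)).w - e5 (Real.cos r)| <
      -ri (t5n m) (H71.SM.push m (pth 0 1)).w
    rw [ri_q5n, ri_t5n]
    exact gB
  · intro i hi u
    show ri (q5n m) (H71.SM.push m (pth i u)).w - e5 (Real.cos r) <
      |ri (t5n m) (H71.SM.push m (pth i u)).w|
    rw [ri_q5n, ri_t5n]
    exact grest i hi u

end Pool.Agent.H81.AV
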