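import Pool.Agent.H70.AV.Key8

/-!
# Measures on the two-sphere invariant under all sign changes, scales above `arccos (1 / √3)`
-/

namespace Pool.Agent.H81.AV

open Pool.Agent.H73.Avr Pool.Agent.H71.AV Pool.Agent.H70.AV

/-- the product of the squares of the coordinates -/
noncomputable def q5 (x : Sph 2) : ℝ := x.1 0 ^ 2 * x.1 1 ^ 2 * x.1 2 ^ 2

/-- the square of the first coordinate minus one third -/
noncomputable def t5 (x : Sph 2) : ℝ := x.1 0 ^ 2 - 1 / 3

/-- the threshold: the midpoint of `c² (1 - c²) / 6` and `1 / 27` -/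
noncomputable def e5 (c : ℝ) : ℝ := (c ^ 2 * (1 - c ^ 2) / 6 + 1 / 27) / 2

private theorem inner_le_cos {n : ℕ} {r : ℝ} (h0 : 0 ≤ r) (μ : AVR (geo n) r)
    {x y : Sph n} (hx : x ∈ μ.w.support) (hy : y ∈ μ.w.support) (hxy : x ≠ y) :
    inner ℝ x.1 y.1 ≤ Real.cos r := by
  have h1 : r ≤ InnerProductGeometry.angle x.1 y.1 := μ.spread x hx y hy hxy
  have h2 := Real.cos_le_cos_of_nonneg_of_le_pi h0 (InnerProductGeometry.angle_le_pi x.1 y.1) h1
  have h3 := InnerProductGeometry.cos_angle_mul_norm_mul_norm x.1 y.1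
  rw [mem_sphere_zero_iff_norm.1 x.2, mem_sphere_zero_iff_norm.1 y.2, one_mul, mul_one] at h3
  linarith

private theorem sum3 (x : Sph 2) : x.1 0 ^ 2 + x.1 1 ^ 2 + x.1 2 ^ 2 = 1 := by
  have h := sum_sq_eq_one x
  rw [Fin.sum_univ_three] at h
  exact h

private theorem inner3 (x y : Sph 2) :
    inner ℝ x.1 y.1 = x.1 0 * y.1 0 + x.1 1 * y.1 1 + x.1 2 * y.1 2 := by
  rw [inner_eq_sum, Fin.sum_univ_three]

private theorem ri_comb (μ : Sph 2 →₀ ℝ) (f g : Sph 2 → ℝ) (a b : ℝ) :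
    ri (fun y => a * f y - b * g y) μ = a * ri f μ - b * ri g μ := by
  unfold ri Finsupp.sum
  rw [Finset.mul_sum, Finset.mul_sum, ← Finset.sum_sub_distrib]
  exact Finset.sum_congr rfl fun x _ => by ring

private theorem ri_nonneg {r : ℝ} (μ : AVR (geo 2) r) {f : Sph 2 → ℝ}
    (h : ∀ y ∈ μ.w.support, 0 ≤ f y) : 0 ≤ ri f μ.w :=
  Finset.sum_nonneg fun x hx => mul_nonneg (μ.nonneg x) (h x hx)

private theorem ri_zero {r : ℝ} (μ : AVR (geo 2) r) {f : Sph 2 → ℝ}
    (h : ∀ y ∈ μ.w.support, f y = 0) : ri f μ.w = 0 := ri_eq_of_const μ h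

/-- two nonzero coordinates -/
private theorem prod2 {a b s : ℝ} (ha : 0 ≤ a) (hb : 0 ≤ b) (h : a ^ 2 + b ^ 2 = 1)
    (hs : 1 / 5 < s) (h1 : s ≤ a ^ 2) (h2 : s ≤ b ^ 2) : 2 / 5 ≤ a * b := by
  have h3 : (2 / 5 : ℝ) ^ 2 ≤ (a * b) ^ 2 := by
    have h4 : 0 ≤ (a ^ 2 - 1 / 5) * (4 / 5 - a ^ 2) :=
      mul_nonneg (by linarith) (by linarith)
    have h5 : (a * b) ^ 2 = a ^ 2 * (1 - a ^ 2) := by
      rw [mul_pow]
      have : b ^ 2 = 1 - a ^ 2 := by linarith
      rw [this]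
    rw [h5]
    nlinarith
  exact (pow_le_pow_iff_left₀ (by norm_num) (mul_nonneg ha hb) two_ne_zero).1 h3

private theorem prod_ge {a b s : ℝ} (ha : 0 ≤ a) (hb : 0 ≤ b) (hs : 1 / 5 < s)
    (h1 : s ≤ a ^ 2) (h2 : s ≤ b ^ 2) : 1 / 5 ≤ a * b := by
  have h3 : (1 / 5 : ℝ) ^ 2 ≤ (a * b) ^ 2 := by
    rw [mul_pow]
    nlinarith
  exact (pow_le_pow_iff_left₀ (by norm_num) (mul_nonneg ha hb) two_ne_zero).1 h3

/-- not an axis: the sum of the products of pairs is large -/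
private theorem pairs {a b d s : ℝ} (ha : 0 ≤ a) (hb : 0 ≤ b) (hd : 0 ≤ d)
    (h : a ^ 2 + b ^ 2 + d ^ 2 = 1) (hs : 1 / 5 < s) (h1 : a = 0 ∨ s ≤ a ^ 2)
    (h2 : b = 0 ∨ s ≤ b ^ 2) (h3 : d = 0 ∨ s ≤ d ^ 2) (n1 : a ^ 2 ≠ 1) (n2 : b ^ 2 ≠ 1)
    (n3 : d ^ 2 ≠ 1) : 2 / 5 ≤ a * b + b * d + a * d := by
  rcases h1 with h1 | h1
  · subst h1
    rcases h2 with h2 | h2
    · subst h2
      exact absurd (by linarith) n3
    · rcases h3 with h3 | h3
      · subst h3
        exact absurd (by linarith) n2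
      · have := prod2 hb hd (by linarith) hs h2 h3
        linarith
  · rcases h2 with h2 | h2
    · subst h2
      rcases h3 with h3 | h3
      · subst h3
        exact absurd (by linarith) n1
      · have := prod2 ha hd (by linarith) hs h1 h3
        linarith
    · rcases h3 with h3 | h3
      · subst h3
        have := prod2 ha hb (by linarith) hs h1 h2
        linarith
      · have e1 := prod_ge ha hb hs h1 h2
        have e2 := prod_ge hb hd hs h2 h3
        have e3 := prod_ge ha hd hs h1 h3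
        linarith

/-- the inner product of an inner point with a point off the axes is too large -/
private theorem too_large {c x0 x1 x2 a b d : ℝ} (hc0 : 0 ≤ c) (hc : 3 * c ^ 2 < 1)
    (hx0 : 0 ≤ x0) (hx1 : 0 ≤ x1) (hx2 : 0 ≤ x2)
    (hs0 : (1 - c) / 2 ≤ x0 ^ 2) (hs1 : (1 - c) / 2 ≤ x1 ^ 2) (hs2 : (1 - c) / 2 ≤ x2 ^ 2)
    (ha : 0 ≤ a) (hb : 0 ≤ b) (hd : 0 ≤ d) (h : a ^ 2 + b ^ 2 + d ^ 2 = 1)
    (hp : 2 / 5 ≤ a * b + b * d + a * d) : c < x0 * a + x1 * b + x2 * d := by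
  have hc5 : c < 3 / 5 := by
    by_contra h5
    rw [not_lt] at h5
    nlinarith
  set p : ℝ := √((1 - c) / 2) with hpdef
  have hp0 : 0 ≤ p := Real.sqrt_nonneg _
  have hpp : p ^ 2 = (1 - c) / 2 := Real.sq_sqrt (by linarith)
  have le1 : ∀ t : ℝ, 0 ≤ t → (1 - c) / 2 ≤ t ^ 2 → p ≤ t := by
    intro t ht h1
    exact (pow_le_pow_iff_left₀ hp0 ht two_ne_zero).1 (by rw [hpp]; exact h1)
  have k0 := mul_le_mul_of_nonneg_right (le1 x0 hx0 hs0) ha
  have k1 := mul_le_mul_of_nonneg_right (le1 x1 hx1 hs1) hb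
  have k2 := mul_le_mul_of_nonneg_right (le1 x2 hx2 hs2) hd
  have hS : 9 / 5 ≤ (a + b + d) ^ 2 := by nlinarith
  have h9 : c ^ 2 < (p * (a + b + d)) ^ 2 := by
    rw [mul_pow, hpp]
    nlinarith
  have h10 : c < p * (a + b + d) :=
    (pow_lt_pow_iff_left₀ hc0 (mul_nonneg hp0 (by linarith)) two_ne_zero).1 h9
  nlinarith

private theorem sq_ge {r : ℝ} (h0 : 0 ≤ r) (μ : AVR (geo 2) r)
    (hinv : ∀ j x, μ.w (flip j x) = μ.w x) {x : Sph 2} (hx : x ∈ μ.w.support) {j : Fin 3}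
    (hj : x.1 j ≠ 0) : (1 - Real.cos r) / 2 ≤ x.1 j ^ 2 := by
  have hf : flip j x ∈ μ.w.support := by
    rw [Finsupp.mem_support_iff] at hx ⊢
    rw [hinv]
    exact hx
  have h1 := inner_le_cos h0 μ hx hf (Ne.symm (flip_ne hj))
  rw [inner_flip] at h1
  linarith

/-- the support of an invariant measure with an inner point -/
private theorem supp_cases {r : ℝ} (h0 : 0 ≤ r) (hc0 : 0 ≤ Real.cos r)
    (hc : 3 * Real.cos r ^ 2 < 1) (μ : AVR (geo 2) r)
    (hinv : ∀ j x, μ.w (flip j x) = μ.w x) {x : Sph 2} (hx : x ∈ μ.w.support)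
    (hx0 : ∀ i, x.1 i ≠ 0) {y : Sph 2} (hy : y ∈ μ.w.support) :
    (∀ i, y.1 i ^ 2 = x.1 i ^ 2) ∨ ∃ i, y.1 i ^ 2 = 1 ∧ x.1 i ^ 2 ≤ Real.cos r ^ 2 := by
  obtain ⟨z, hz, h1, h2⟩ := exists_aligned μ hinv x hy Finset.univ
  by_cases hzx : z = x
  · left
    intro i
    rw [← h1, hzx]
  right
  have h3 := inner_le_cos h0 μ hx hz (Ne.symm hzx)
  have habs : ∀ i, x.1 i * z.1 i = |x.1 i| * |z.1 i| := fun i => by
    rw [← abs_mul, abs_of_nonneg (h2 i (Finset.mem_univ i))]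
  rw [inner3, habs, habs, habs] at h3
  have hsx : ∀ i, (1 - Real.cos r) / 2 ≤ |x.1 i| ^ 2 := fun i => by
    rw [sq_abs]
    exact sq_ge h0 μ hinv hx (hx0 i)
  have hsz : ∀ i, |z.1 i| = 0 ∨ (1 - Real.cos r) / 2 ≤ |z.1 i| ^ 2 := fun i => by
    by_cases hzi : z.1 i = 0
    · left
      rw [hzi, abs_zero]
    · right
      rw [sq_abs]
      exact sq_ge h0 μ hinv hz hzi
  have hz1 : |z.1 0| ^ 2 + |z.1 1| ^ 2 + |z.1 2| ^ 2 = 1 := by
    rw [sq_abs, sq_abs, sq_abs]
    exact sum3 z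
  have hax : |z.1 0| ^ 2 = 1 ∨ |z.1 1| ^ 2 = 1 ∨ |z.1 2| ^ 2 = 1 := by
    by_contra hcon
    push Not at hcon
    obtain ⟨n1, n2, n3⟩ := hcon
    have hs : 1 / 5 < (1 - Real.cos r) / 2 := by
      have : Real.cos r < 3 / 5 := by
        by_contra h5
        rw [not_lt] at h5
        nlinarith
      linarith
    have hp := pairs (abs_nonneg _) (abs_nonneg _) (abs_nonneg _) hz1 hs (hsz 0) (hsz 1) (hsz 2)
      n1 n2 n3
    have := too_large hc0 hc (abs_nonneg _) (abs_nonneg _) (abs_nonneg _) (hsx 0) (hsx 1) (hsx 2)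
      (abs_nonneg _) (abs_nonneg _) (abs_nonneg _) hz1 hp
    linarith
  have fin : ∀ i, |z.1 i| ^ 2 = 1 → |x.1 i| * |z.1 i| ≤ Real.cos r →
      ∃ i, y.1 i ^ 2 = 1 ∧ x.1 i ^ 2 ≤ Real.cos r ^ 2 := by
    intro i hi hle
    refine ⟨i, by rw [← h1, ← sq_abs, hi], ?_⟩
    have h4 : |z.1 i| = 1 := by
      have := abs_nonneg (z.1 i)
      nlinarith
    rw [h4, mul_one] at hle
    rw [← sq_abs]
    exact pow_le_pow_left₀ (abs_nonneg _) hle 2
  have m0 := mul_nonneg (abs_nonneg (x.1 0)) (abs_nonneg (z.1 0))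
  have m1 := mul_nonneg (abs_nonneg (x.1 1)) (abs_nonneg (z.1 1))
  have m2 := mul_nonneg (abs_nonneg (x.1 2)) (abs_nonneg (z.1 2))
  rcases hax with h | h | h
  · exact fin 0 h (by linarith)
  · exact fin 1 h (by linarith)
  · exact fin 2 h (by linarith)

/-- the arithmetic at the end -/
private theorem arith {u0 u1 u2 k Q : ℝ} (h0 : 0 < u0) (h1 : 0 < u1) (h2 : 0 < u2)
    (hs : u0 + u1 + u2 = 1) (hk : 3 * k < 1) (hk0 : 0 ≤ k)
    (e2 : u2 * Q = u0 * u1 * u2 / 3)
    (i0 : u0 * Q ≤ u0 * u1 * u2 / 3) (i1 : u1 * Q ≤ u0 * u1 * u2 / 3)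
    (e0 : k < u0 → u0 * Q = u0 * u1 * u2 / 3) (e1 : k < u1 → u1 * Q = u0 * u1 * u2 / 3) :
    Q ≠ (k * (1 - k) / 6 + 1 / 27) / 2 := by
  have hQ : Q = u0 * u1 / 3 := by
    have : u2 * Q = u2 * (u0 * u1 / 3) := by rw [e2]; ring
    exact mul_left_cancel₀ h2.ne' this
  have hM : k * (1 - k) / 6 < 1 / 27 := by nlinarith
  rcases lt_or_ge k u0 with a0 | a0
  · have f0 := e0 a0
    have g0 : u0 = u2 := by
      rw [hQ] at f0
      have h5 : u0 * u1 * u0 = u0 * u1 * u2 := by linarith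
      exact mul_left_cancel₀ (mul_pos h0 h1).ne' h5
    rcases lt_or_ge k u1 with a1 | a1
    · have f1 := e1 a1
      have g1 : u1 = u2 := by
        rw [hQ] at f1
        have h5 : u0 * u1 * u1 = u0 * u1 * u2 := by linarith
        exact mul_left_cancel₀ (mul_pos h0 h1).ne' h5
      have h6 : u2 = 1 / 3 := by linarith
      have h7 : Q = 1 / 27 := by
        rw [hQ, g0, g1, h6]
        norm_num
      rw [h7]
      linarith
    · have h6 : u0 = (1 - u1) / 2 := by linarith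
      have h7 : Q ≤ k * (1 - k) / 6 := by
        rw [hQ, h6]
        nlinarith
      intro h8
      linarith
  · have hu02 : u0 ≤ u2 := by
      rw [hQ] at i0
      have h5 : (u0 * u1) * u0 ≤ (u0 * u1) * u2 := by linarith
      exact le_of_mul_le_mul_left h5 (mul_pos h0 h1)
    rcases lt_or_ge k u1 with a1 | a1
    · have f1 := e1 a1
      have g1 : u1 = u2 := by
        rw [hQ] at f1
        have h5 : u0 * u1 * u1 = u0 * u1 * u2 := by linarith
        exact mul_left_cancel₀ (mul_pos h0 h1).ne' h5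
      have h6 : u1 = (1 - u0) / 2 := by linarith
      have h7 : Q ≤ k * (1 - k) / 6 := by
        rw [hQ, h6]
        nlinarith
      intro h8
      linarith
    · have h7 : Q ≤ k * (1 - k) / 6 := by
        rw [hQ]
        nlinarith [mul_le_mul a0 a1 h1.le hk0]
      intro h8
      linarith

/-- no common zero: all three second moments are `1 / 3` and `∫ x₀² x₁² x₂² = e5 (cos r)` -/
theorem key5 {r : ℝ} (h0 : 0 ≤ r) (hc0 : 0 ≤ Real.cos r) (hc : 3 * Real.cos r ^ 2 < 1)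
    (μ : AVR (geo 2) r) (hinv : ∀ j x, μ.w (flip j x) = μ.w x)
    (hm : ∀ i : Fin 3, ri (fun x => x.1 i ^ 2) μ.w = 1 / 3) : ri q5 μ.w ≠ e5 (Real.cos r) := by
  have hk0 : 0 ≤ Real.cos r ^ 2 := sq_nonneg _
  by_cases h : ∃ x ∈ μ.w.support, ∀ i, x.1 i ≠ 0
  · obtain ⟨x, hx, hx0⟩ := h
    have hpos : ∀ i, 0 < x.1 i ^ 2 := fun i => by
      have := hx0 i
      positivity
    have hX : q5 x = x.1 0 ^ 2 * x.1 1 ^ 2 * x.1 2 ^ 2 := rfl
    have hXpos : 0 < q5 x := by
      rw [hX]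
      exact mul_pos (mul_pos (hpos 0) (hpos 1)) (hpos 2)
    have hcase := fun y hy => supp_cases h0 hc0 hc μ hinv hx hx0 (y := y) hy
    -- the values on the support
    have hq : ∀ y : Sph 2, (∀ i, y.1 i ^ 2 = x.1 i ^ 2) → q5 y = q5 x := fun y hy => by
      unfold q5
      rw [hy, hy, hy]
    have hax : ∀ y : Sph 2, ∀ i, y.1 i ^ 2 = 1 → (∀ j, j ≠ i → y.1 j ^ 2 = 0) ∧ q5 y = 0 := by
      intro y i hi
      have hsum := sum3 y
      have p0 := sq_nonneg (y.1 0)
      have p1 := sq_nonneg (y.1 1)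
      have p2 := sq_nonneg (y.1 2)
      have hi3 : i = 0 ∨ i = 1 ∨ i = 2 := by
        clear hi
        revert i
        decide
      unfold q5
      rcases hi3 with rfl | rfl | rfl
      · have z1 : y.1 1 ^ 2 = 0 := by linarith
        have z2 : y.1 2 ^ 2 = 0 := by linarith
        refine ⟨fun j hj => ?_, by rw [z1]; ring⟩
        have hj3 : j = 1 ∨ j = 2 := by
          revert j
          decide
        rcases hj3 with rfl | rfl
        · exact z1
        · exact z2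
      · have z1 : y.1 0 ^ 2 = 0 := by linarith
        have z2 : y.1 2 ^ 2 = 0 := by linarith
        refine ⟨fun j hj => ?_, by rw [z1]; ring⟩
        have hj3 : j = 0 ∨ j = 2 := by
          revert j
          decide
        rcases hj3 with rfl | rfl
        · exact z1
        · exact z2
      · have z1 : y.1 0 ^ 2 = 0 := by linarith
        have z2 : y.1 1 ^ 2 = 0 := by linarith
        refine ⟨fun j hj => ?_, by rw [z1]; ring⟩
        have hj3 : j = 0 ∨ j = 1 := by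
          revert j
          decide
        rcases hj3 with rfl | rfl
        · exact z1
        · exact z2
    have hle : ∀ j, x.1 j ^ 2 * ri q5 μ.w ≤ q5 x / 3 := by
      intro j
      have h1 : 0 ≤ ri (fun y => q5 x * (fun z : Sph 2 => z.1 j ^ 2) y - x.1 j ^ 2 * q5 y) μ.w := by
        refine ri_nonneg μ fun y hy => ?_
        rcases hcase y hy with h2 | ⟨i, h2, -⟩
        · show 0 ≤ q5 x * y.1 j ^ 2 - x.1 j ^ 2 * q5 y
          rw [hq y h2, h2 j]
          linarith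
        · show 0 ≤ q5 x * y.1 j ^ 2 - x.1 j ^ 2 * q5 y
          rw [(hax y i h2).2, mul_zero, sub_zero]
          exact mul_nonneg hXpos.le (sq_nonneg _)
      rw [ri_comb, hm j] at h1
      linarith
    have heq : ∀ j, Real.cos r ^ 2 < x.1 j ^ 2 → x.1 j ^ 2 * ri q5 μ.w = q5 x / 3 := by
      intro j hj
      have h1 : ri (fun y => q5 x * (fun z : Sph 2 => z.1 j ^ 2) y - x.1 j ^ 2 * q5 y) μ.w = 0 := by
        refine ri_zero μ fun y hy => ?_
        rcases hcase y hy with h2 | ⟨i, h2, h3⟩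
        · show q5 x * y.1 j ^ 2 - x.1 j ^ 2 * q5 y = 0
          rw [hq y h2, h2 j]
          ring
        · show q5 x * y.1 j ^ 2 - x.1 j ^ 2 * q5 y = 0
          have hji : j ≠ i := by
            rintro rfl
            linarith
          rw [(hax y i h2).2, (hax y i h2).1 j hji]
          ring
      rw [ri_comb, hm j] at h1
      linarith
    have hsx := sum3 x
    have big : ∃ j, Real.cos r ^ 2 < x.1 j ^ 2 := by
      by_contra hcon
      push Not at hcon
      have c0 := hcon 0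
      have c1 := hcon 1
      have c2 := hcon 2
      linarith
    obtain ⟨j, hj⟩ := big
    have hj3 : j = 0 ∨ j = 1 ∨ j = 2 := by
      clear hj
      revert j
      decide
    unfold e5
    rcases hj3 with rfl | rfl | rfl
    · refine arith (hpos 1) (hpos 2) (hpos 0) (by linarith) hc hk0 ?_ ?_ ?_ ?_ ?_
      · rw [heq 0 hj, hX]; ring
      · refine (hle 1).trans (le_of_eq ?_)
        rw [hX]; ring
      · refine (hle 2).trans (le_of_eq ?_)
        rw [hX]; ring
      · intro h1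
        rw [heq 1 h1, hX]; ring
      · intro h1
        rw [heq 2 h1, hX]; ring
    · refine arith (hpos 0) (hpos 2) (hpos 1) (by linarith) hc hk0 ?_ ?_ ?_ ?_ ?_
      · rw [heq 1 hj, hX]; ring
      · refine (hle 0).trans (le_of_eq ?_)
        rw [hX]; ring
      · refine (hle 2).trans (le_of_eq ?_)
        rw [hX]; ring
      · intro h1
        rw [heq 0 h1, hX]; ring
      · intro h1
        rw [heq 2 h1, hX]; ring
    · refine arith (hpos 0) (hpos 1) (hpos 2) (by linarith) hc hk0 ?_ ?_ ?_ ?_ ?_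
      · rw [heq 2 hj, hX]
      · refine (hle 0).trans (le_of_eq ?_)
        rw [hX]
      · refine (hle 1).trans (le_of_eq ?_)
        rw [hX]
      · intro h1
        rw [heq 0 h1, hX]
      · intro h1
        rw [heq 1 h1, hX]
  · have hc1 : ri q5 μ.w = 0 := by
      refine ri_zero μ fun y hy => ?_
      have h1 : ∃ i, y.1 i = 0 := by
        by_contra h2
        exact h ⟨y, hy, fun i hi => h2 ⟨i, hi⟩⟩
      obtain ⟨i, hi⟩ := h1
      unfold q5
      have hi3 : i = 0 ∨ i = 1 ∨ i = 2 := by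
        clear hi
        revert i
        decide
      rcases hi3 with rfl | rfl | rfl
      · rw [hi]; ring
      · rw [hi]; ring
      · rw [hi]; ring
    rw [hc1]
    unfold e5
    have h2 : 0 ≤ Real.cos r ^ 2 * (1 - Real.cos r ^ 2) := mul_nonneg hk0 (by linarith)
    intro h3
    linarith

/-- the form with the swap of the last two coordinates: `∫ x₁² = ∫ x₂²` -/
theorem key5' {r : ℝ} (h0 : 0 ≤ r) (hc0 : 0 ≤ Real.cos r) (hc : 3 * Real.cos r ^ 2 < 1)
    (μ : AVR (geo 2) r) (hinv : ∀ j x, μ.w (flip j x) = μ.w x)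
    (hsw : ri (fun x => x.1 1 ^ 2) μ.w = ri (fun x => x.1 2 ^ 2) μ.w)
    (ht : ri t5 μ.w = 0) : ri q5 μ.w ≠ e5 (Real.cos r) := by
  have htot : ri (fun _ => (1 : ℝ)) μ.w = 1 := ri_eq_of_const μ fun _ _ => rfl
  have hA0 : ri (fun x => x.1 0 ^ 2) μ.w = 1 / 3 := by
    have h1 := ri_comb μ.w (fun x => x.1 0 ^ 2) (fun _ => (1 : ℝ)) 1 (1 / 3)
    have h2 : (fun y : Sph 2 => 1 * (fun x : Sph 2 => x.1 0 ^ 2) y -
        1 / 3 * (fun _ => (1 : ℝ)) y) = t5 := by
      funext y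
      unfold t5
      ring
    rw [h2, ht, htot] at h1
    linarith
  have hsum : ri (fun x => x.1 0 ^ 2) μ.w + ri (fun x => x.1 1 ^ 2) μ.w +
      ri (fun x => x.1 2 ^ 2) μ.w = 1 := by
    have h1 : ri (fun x => x.1 0 ^ 2) μ.w + ri (fun x => x.1 1 ^ 2) μ.w +
        ri (fun x => x.1 2 ^ 2) μ.w = ri (fun _ => (1 : ℝ)) μ.w := by
      unfold ri Finsupp.sum
      rw [← Finset.sum_add_distrib, ← Finset.sum_add_distrib]
      refine Finset.sum_congr rfl fun x _ => ?_
      have := sum3 x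
      linear_combination (μ.w x) * this
    rw [h1, htot]
  refine key5 h0 hc0 hc μ hinv fun i => ?_
  have hi3 : i = 0 ∨ i = 1 ∨ i = 2 := by
    revert i
    decide
  rcases hi3 with rfl | rfl | rfl
  · exact hA0
  · linarith
  · linarith

end Pool.Agent.H81.AV
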