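import Pool.Agent.H81.AV.Key5
import Pool.Agent.H89.AVB.Loop4

/-!
# A loop of measures on the two-sphere invariant under all sign changes and a swap
-/

namespace Pool.Agent.H81.AV

open Pool.Agent.H73.Avr hiding cl
open Pool.Agent.H71.AV Pool.Agent.H70.AV
open Pool.Agent.H89.AVB (cont_fam pt3)

/-! ## Sign changes and the swap of the last two coordinates -/

/-- linear sign change -/
noncomputable def lsg (e : Fin 3 → Bool) (x : EuclideanSpace ℝ (Fin 3)) :
    EuclideanSpace ℝ (Fin 3) :=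
  WithLp.toLp 2 (fun i => if e i then -x i else x i)

private theorem inner_lsg (e : Fin 3 → Bool) (x y : EuclideanSpace ℝ (Fin 3)) :
    inner ℝ (lsg e x) (lsg e y) = inner ℝ x y := by
  rw [PiLp.inner_apply, PiLp.inner_apply]
  refine Finset.sum_congr rfl fun i _ => ?_
  show inner ℝ (if e i then -x i else x i) (if e i then -y i else y i) = _
  split_ifs <;> simp

private theorem norm_lsg (e : Fin 3 → Bool) (x : EuclideanSpace ℝ (Fin 3)) :
    ‖lsg e x‖ = ‖x‖ := by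
  have h1 := inner_lsg e x x
  rw [real_inner_self_eq_norm_sq, real_inner_self_eq_norm_sq] at h1
  exact (sq_eq_sq₀ (norm_nonneg _) (norm_nonneg _)).1 h1

/-- sign change on the sphere -/
noncomputable def sg (e : Fin 3 → Bool) (x : Sph 2) : Sph 2 :=
  ⟨lsg e x.1, by rw [mem_sphere_zero_iff_norm, norm_lsg, mem_sphere_zero_iff_norm.1 x.2]⟩

theorem sg_apply (e : Fin 3 → Bool) (x : Sph 2) (i : Fin 3) :
    (sg e x).1 i = if e i then -x.1 i else x.1 i := rfl

/-- the linear swap of the coordinates `1` and `2` -/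
noncomputable def lswp (x : EuclideanSpace ℝ (Fin 3)) : EuclideanSpace ℝ (Fin 3) :=
  WithLp.toLp 2 (fun i => x (Equiv.swap 1 2 i))

theorem inner_lswp (x y : EuclideanSpace ℝ (Fin 3)) :
    inner ℝ (lswp x) (lswp y) = inner ℝ x y := by
  rw [PiLp.inner_apply, PiLp.inner_apply]
  exact Equiv.sum_comp (Equiv.swap (1 : Fin 3) 2) (fun i => inner ℝ (x i) (y i))

theorem norm_lswp (x : EuclideanSpace ℝ (Fin 3)) : ‖lswp x‖ = ‖x‖ := by
  have h1 := inner_lswp x x
  rw [real_inner_self_eq_norm_sq, real_inner_self_eq_norm_sq] at h1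
  exact (sq_eq_sq₀ (norm_nonneg _) (norm_nonneg _)).1 h1

/-- the swap of the coordinates `1` and `2` -/
noncomputable def swp (x : Sph 2) : Sph 2 :=
  ⟨lswp x.1, by rw [mem_sphere_zero_iff_norm, norm_lswp, mem_sphere_zero_iff_norm.1 x.2]⟩

theorem swp_apply (x : Sph 2) (i : Fin 3) : (swp x).1 i = x.1 (Equiv.swap 1 2 i) := rfl

theorem swp_swp (x : Sph 2) : swp (swp x) = x := by
  apply Subtype.ext
  ext i
  rw [swp_apply, swp_apply, Equiv.swap_apply_self]

theorem swp_injective : Function.Injective swp := fun x y h => by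
  rw [← swp_swp x, h, swp_swp]

theorem geo_swp (x y : Sph 2) : geo 2 (swp x) (swp y) = geo 2 x y := by
  unfold geo InnerProductGeometry.angle
  show Real.arccos (inner ℝ (lswp x.1) (lswp y.1) / (‖lswp x.1‖ * ‖lswp y.1‖)) = _
  rw [inner_lswp, norm_lswp, norm_lswp]

private theorem flip_sg (j : Fin 3) (e : Fin 3 → Bool) (x : Sph 2) :
    flip j (sg e x) = sg (fun i => if i = j then !(e i) else e i) x := by
  apply Subtype.ext
  ext i
  rw [flip_apply, sg_apply, sg_apply]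
  by_cases h : i = j
  · rw [if_pos h]
    cases he : e i <;> simp [h, he]
  · simp [h]

private theorem swp_sg (e : Fin 3 → Bool) (x : Sph 2) :
    swp (sg e x) = sg (fun i => e (Equiv.swap 1 2 i)) (swp x) := by
  apply Subtype.ext
  ext i
  rw [swp_apply, sg_apply, sg_apply, swp_apply]

private theorem sg_sq (e : Fin 3 → Bool) (x : Sph 2) (i : Fin 3) :
    (sg e x).1 i ^ 2 = x.1 i ^ 2 := by
  rw [sg_apply]
  split_ifs
  · ring
  · rfl

private theorem sg_abs (e : Fin 3 → Bool) (x : Sph 2) (i : Fin 3) :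
    |(sg e x).1 i| = |x.1 i| := by
  rw [sg_apply]
  split_ifs
  · rw [abs_neg]
  · rfl

private theorem inner3 (x y : Sph 2) :
    inner ℝ x.1 y.1 = x.1 0 * y.1 0 + x.1 1 * y.1 1 + x.1 2 * y.1 2 := by
  rw [inner_eq_sum, Fin.sum_univ_three]

/-! ## Combinations of orbits -/

/-- the measure with the weights `l i` on the orbits of the points `p i` -/
noncomputable def wM (p : Fin 4 → Sph 2) (l : Fin 4 → ℝ) : Sph 2 →₀ ℝ :=
  ∑ q : Fin 4 × (Fin 3 → Bool), Finsupp.single (sg q.2 (p q.1)) (l q.1 / 8)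

private theorem wM_support {p : Fin 4 → Sph 2} {l : Fin 4 → ℝ} {x : Sph 2}
    (hx : x ∈ (wM p l).support) : ∃ i e, l i ≠ 0 ∧ x = sg e (p i) := by
  classical
  by_contra hcon
  push Not at hcon
  rw [Finsupp.mem_support_iff] at hx
  apply hx
  unfold wM
  rw [Finsupp.finset_sum_apply]
  refine Finset.sum_eq_zero fun q _ => ?_
  by_cases h : l q.1 = 0
  · rw [h, zero_div, Finsupp.single_zero]
    rfl
  · exact Finsupp.single_eq_of_ne (hcon q.1 q.2 h)

private theorem ri_sum' {n : ℕ} {ι : Type} (f : Sph n → ℝ) (s : Finset ι)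
    (g : ι → Sph n →₀ ℝ) : ri f (∑ i ∈ s, g i) = ∑ i ∈ s, ri f (g i) := by
  classical
  induction s using Finset.induction_on with
  | empty =>
    rw [Finset.sum_empty, Finset.sum_empty]
    unfold ri
    exact Finsupp.sum_zero_index
  | insert a s ha ih => rw [Finset.sum_insert ha, Finset.sum_insert ha, ri_add, ih]

private theorem map_sum' {X Y ι : Type} (f : X → Y) (s : Finset ι) (g : ι → X →₀ ℝ) :
    Finsupp.mapDomain f (∑ i ∈ s, g i) = ∑ i ∈ s, Finsupp.mapDomain f (g i) := by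
  classical
  induction s using Finset.induction_on with
  | empty => rw [Finset.sum_empty, Finset.sum_empty, Finsupp.mapDomain_zero]
  | insert a s ha ih =>
    rw [Finset.sum_insert ha, Finset.sum_insert ha, Finsupp.mapDomain_add, ih]

theorem ri_wM {f : Sph 2 → ℝ} (hf : ∀ e x, f (sg e x) = f x) (p : Fin 4 → Sph 2)
    (l : Fin 4 → ℝ) : ri f (wM p l) = ∑ i, l i * f (p i) := by
  unfold wM
  rw [ri_sum', Fintype.sum_prod_type]
  refine Finset.sum_congr rfl fun i _ => ?_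
  simp only [ri_single, hf]
  rw [Finset.sum_const, Finset.card_univ]
  have hcard : Fintype.card (Fin 3 → Bool) = 8 := by
    simp
  rw [hcard, nsmul_eq_mul]
  push_cast
  ring

private def tog (j : Fin 3) : (Fin 3 → Bool) ≃ (Fin 3 → Bool) where
  toFun e := fun i => if i = j then !(e i) else e i
  invFun e := fun i => if i = j then !(e i) else e i
  left_inv e := by
    funext i
    by_cases h : i = j <;> simp [h]
  right_inv e := by
    funext i
    by_cases h : i = j <;> simp [h]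

private theorem wM_map_flip (j : Fin 3) (p : Fin 4 → Sph 2) (l : Fin 4 → ℝ) :
    (wM p l).mapDomain (flip j) = wM p l := by
  unfold wM
  rw [map_sum', Fintype.sum_prod_type, Fintype.sum_prod_type]
  refine Finset.sum_congr rfl fun i _ => ?_
  simp only [Finsupp.mapDomain_single, flip_sg]
  exact Equiv.sum_comp (tog j) (fun e => Finsupp.single (sg e (p i)) (l i / 8))

theorem wM_flip (j : Fin 3) (p : Fin 4 → Sph 2) (l : Fin 4 → ℝ) (x : Sph 2) :
    wM p l (flip j x) = wM p l x := by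
  conv_rhs => rw [← wM_map_flip j p l, ← flip_flip j x]
  rw [Finsupp.mapDomain_apply (flip_injective j)]

private def sws : (Fin 3 → Bool) ≃ (Fin 3 → Bool) where
  toFun e := fun i => e (Equiv.swap 1 2 i)
  invFun e := fun i => e (Equiv.swap 1 2 i)
  left_inv e := by
    funext i
    simp
  right_inv e := by
    funext i
    simp

private theorem wM_map_swp {p : Fin 4 → Sph 2} {l : Fin 4 → ℝ}
    (hp : ∀ i, swp (p i) = p (Equiv.swap 1 2 i)) (hl : ∀ i, l (Equiv.swap 1 2 i) = l i) :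
    (wM p l).mapDomain swp = wM p l := by
  unfold wM
  rw [map_sum', Fintype.sum_prod_type, Fintype.sum_prod_type]
  simp only [Finsupp.mapDomain_single, swp_sg, hp]
  rw [← Equiv.sum_comp (Equiv.swap (1 : Fin 4) 2) (fun i => ∑ e : Fin 3 → Bool,
    Finsupp.single (sg e (p i)) (l i / 8))]
  refine Finset.sum_congr rfl fun i _ => ?_
  simp only [hl]
  exact Equiv.sum_comp sws (fun e => Finsupp.single (sg e (p (Equiv.swap 1 2 i))) (l i / 8))

theorem wM_swp {p : Fin 4 → Sph 2} {l : Fin 4 → ℝ}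
    (hp : ∀ i, swp (p i) = p (Equiv.swap 1 2 i)) (hl : ∀ i, l (Equiv.swap 1 2 i) = l i)
    (x : Sph 2) : wM p l (swp x) = wM p l x := by
  conv_rhs => rw [← wM_map_swp hp hl, ← swp_swp x]
  rw [Finsupp.mapDomain_apply swp_injective]

/-- a combination of orbits as a member of the thickening -/
noncomputable def mkM {r : ℝ} (hr0 : 0 ≤ r) (hr : r ≤ Real.pi) (p : Fin 4 → Sph 2)
    (l : Fin 4 → ℝ) (h0 : ∀ i, 0 ≤ l i) (h1 : ∑ i, l i = 1)
    (hself : ∀ i k, (p i).1 k = 0 ∨ 1 - 2 * (p i).1 k ^ 2 ≤ Real.cos r)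
    (horth : ∀ i j, i ≠ j → l i ≠ 0 → l j ≠ 0 →
      |(p i).1 0| * |(p j).1 0| + |(p i).1 1| * |(p j).1 1| + |(p i).1 2| * |(p j).1 2| ≤
        Real.cos r) :
    AVR (geo 2) r where
  w := wM p l
  nonneg := by
    intro x
    unfold wM
    rw [Finsupp.finset_sum_apply]
    exact Finset.sum_nonneg fun q _ => single_nonneg _ _ (div_nonneg (h0 _) (by norm_num))
  total := by
    have h := ri_wM (f := fun _ => 1) (fun _ _ => rfl) p l
    unfold ri at h
    simp only [mul_one] at h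
    rw [h, h1]
  spread := by
    intro x hx y hy hxy
    obtain ⟨i, e, hi, rfl⟩ := wM_support hx
    obtain ⟨j, e', hj, rfl⟩ := wM_support hy
    refine le_geo hr0 hr ?_
    by_cases hij : i = j
    · subst hij
      obtain ⟨k, hk⟩ : ∃ k, (sg e (p i)).1 k ≠ (sg e' (p i)).1 k := by
        by_contra h
        refine hxy (Subtype.ext ?_)
        ext k
        by_contra hk
        exact h ⟨k, hk⟩
      have h2 := inner_orb (a := fun k => (p i).1 k ^ 2) (x := sg e (p i)) (y := sg e' (p i))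
        (fun k => sg_sq e (p i) k) (fun k => sg_sq e' (p i) k) hk
      rcases hself i k with h3 | h3
      · exfalso
        apply hk
        rw [sg_apply, sg_apply, h3]
        simp
      · exact h2.trans h3
    · refine le_trans ?_ (horth i j hij hi hj)
      rw [inner3, ← sg_abs e (p i) 0, ← sg_abs e (p i) 1, ← sg_abs e (p i) 2,
        ← sg_abs e' (p j) 0, ← sg_abs e' (p j) 1, ← sg_abs e' (p j) 2, ← abs_mul, ← abs_mul,
        ← abs_mul]
      have a0 := le_abs_self ((sg e (p i)).1 0 * (sg e' (p j)).1 0)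
      have a1 := le_abs_self ((sg e (p i)).1 1 * (sg e' (p j)).1 1)
      have a2 := le_abs_self ((sg e (p i)).1 2 * (sg e' (p j)).1 2)
      linarith

/-! ## The points of the loop -/

private theorem pt3_cont {a b c : ℝ → ℝ} (h : ∀ t, a t ^ 2 + b t ^ 2 + c t ^ 2 = 1)
    (ha : Continuous a) (hb : Continuous b) (hc : Continuous c) :
    Continuous fun t => pt3 (a t) (b t) (c t) (h t) := by
  refine Continuous.subtype_mk ?_ _
  refine (PiLp.continuous_toLp 2 _).comp ?_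
  refine continuous_pi fun i => ?_
  fin_cases i
  · exact ha
  · exact hb
  · exact hc

private theorem sg_cont (e : Fin 3 → Bool) : Continuous (sg e) := by
  refine Continuous.subtype_mk ?_ _
  show Continuous fun x : Sph 2 => lsg e x.1
  unfold lsg
  refine (PiLp.continuous_toLp 2 _).comp ?_
  refine continuous_pi fun i => ?_
  have hi : Continuous fun x : Sph 2 => x.1 i := by fun_prop
  by_cases h : e i
  · simp only [h, if_true]
    exact hi.neg
  · simp only [h]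
    exact hi

/-- clamp to `[0, 1]` keeps the point well defined for every `u` -/
private theorem sq_aux (u : ℝ) :
    (√(cl u)) ^ 2 + (√((1 - cl u) / 2)) ^ 2 + (√((1 - cl u) / 2)) ^ 2 = 1 := by
  have h0 := cl_nonneg u
  have h1 := cl_le_one u
  rw [Real.sq_sqrt h0, Real.sq_sqrt (by linarith)]
  ring

/-- the four base points -/
noncomputable def bq (u : ℝ) : Fin 4 → Sph 2
  | 0 => pt3 1 0 0 (by norm_num)
  | 1 => pt3 0 1 0 (by norm_num)
  | 2 => pt3 0 0 1 (by norm_num)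
  | 3 => pt3 (√(cl u)) (√((1 - cl u) / 2)) (√((1 - cl u) / 2)) (sq_aux u)

private theorem fin4 (i : Fin 4) : i = 0 ∨ i = 1 ∨ i = 2 ∨ i = 3 := by
  revert i
  decide

private theorem fin3 (i : Fin 3) : i = 0 ∨ i = 1 ∨ i = 2 := by
  revert i
  decide

private theorem bq_cont {u : ℝ → ℝ} (hu : Continuous u) (i : Fin 4) :
    Continuous fun t => bq (u t) i := by
  rcases fin4 i with rfl | rfl | rfl | rfl
  · exact continuous_const
  · exact continuous_const
  · exact continuous_const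
  · have hc := cl_continuous.comp hu
    exact pt3_cont (fun t => sq_aux (u t)) (Real.continuous_sqrt.comp hc)
      (Real.continuous_sqrt.comp ((continuous_const.sub hc).div_const _))
      (Real.continuous_sqrt.comp ((continuous_const.sub hc).div_const _))

private theorem cl_of_mem {u : ℝ} (h0 : 0 ≤ u) (h1 : u ≤ 1) : cl u = u := by
  unfold cl
  rw [min_eq_left h1, max_eq_right h0]

/-- the weights -/
noncomputable def wq (a b : ℝ) : Fin 4 → ℝ
  | 0 => a
  | 1 => b / 2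
  | 2 => b / 2
  | 3 => 1 - a - b

private theorem bq_swp (u : ℝ) (i : Fin 4) : swp (bq u i) = bq u (Equiv.swap 1 2 i) := by
  have e0 : (Equiv.swap (1 : Fin 3) 2) 0 = 0 := by decide
  have e1 : (Equiv.swap (1 : Fin 3) 2) 1 = 2 := by decide
  have e2 : (Equiv.swap (1 : Fin 3) 2) 2 = 1 := by decide
  apply Subtype.ext
  ext k
  rw [swp_apply]
  rcases fin4 i with rfl | rfl | rfl | rfl
  · have f : (Equiv.swap (1 : Fin 4) 2) 0 = 0 := by decide
    rw [f]
    rcases fin3 k with rfl | rfl | rfl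
    · rw [e0]
    · rw [e1]; rfl
    · rw [e2]; rfl
  · have f : (Equiv.swap (1 : Fin 4) 2) 1 = 2 := by decide
    rw [f]
    rcases fin3 k with rfl | rfl | rfl
    · rw [e0]; rfl
    · rw [e1]; rfl
    · rw [e2]; rfl
  · have f : (Equiv.swap (1 : Fin 4) 2) 2 = 1 := by decide
    rw [f]
    rcases fin3 k with rfl | rfl | rfl
    · rw [e0]; rfl
    · rw [e1]; rfl
    · rw [e2]; rfl
  · have f : (Equiv.swap (1 : Fin 4) 2) 3 = 3 := by decide
    rw [f]
    rcases fin3 k with rfl | rfl | rfl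
    · rw [e0]
    · rw [e1]; rfl
    · rw [e2]; rfl

private theorem wq_swp (a b : ℝ) (i : Fin 4) : wq a b (Equiv.swap 1 2 i) = wq a b i := by
  rcases fin4 i with rfl | rfl | rfl | rfl
  · have f : (Equiv.swap (1 : Fin 4) 2) 0 = 0 := by decide
    rw [f]
  · have f : (Equiv.swap (1 : Fin 4) 2) 1 = 2 := by decide
    rw [f]; rfl
  · have f : (Equiv.swap (1 : Fin 4) 2) 2 = 1 := by decide
    rw [f]; rfl
  · have f : (Equiv.swap (1 : Fin 4) 2) 3 = 3 := by decide
    rw [f]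

private theorem bq_self {c u : ℝ} (hc : -1 ≤ c) (hu0 : (1 - c) / 2 ≤ u) (hu1 : u ≤ c)
    (h1 : u ≤ 1) (h0 : 0 ≤ u) (i : Fin 4) (k : Fin 3) :
    (bq u i).1 k = 0 ∨ 1 - 2 * (bq u i).1 k ^ 2 ≤ c := by
  rcases fin4 i with rfl | rfl | rfl | rfl
  · rcases fin3 k with rfl | rfl | rfl
    · right
      show 1 - 2 * (1 : ℝ) ^ 2 ≤ c
      linarith
    · left; rfl
    · left; rfl
  · rcases fin3 k with rfl | rfl | rfl
    · left; rfl
    · right
      show 1 - 2 * (1 : ℝ) ^ 2 ≤ c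
      linarith
    · left; rfl
  · rcases fin3 k with rfl | rfl | rfl
    · left; rfl
    · left; rfl
    · right
      show 1 - 2 * (1 : ℝ) ^ 2 ≤ c
      linarith
  · right
    rcases fin3 k with rfl | rfl | rfl
    · show 1 - 2 * (√(cl u)) ^ 2 ≤ c
      rw [Real.sq_sqrt (cl_nonneg u), cl_of_mem h0 h1]
      linarith
    · show 1 - 2 * (√((1 - cl u) / 2)) ^ 2 ≤ c
      rw [cl_of_mem h0 h1, Real.sq_sqrt (by linarith)]
      linarith
    · show 1 - 2 * (√((1 - cl u) / 2)) ^ 2 ≤ c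
      rw [cl_of_mem h0 h1, Real.sq_sqrt (by linarith)]
      linarith

/-- the mass `1 - a - b` may be positive together with `a` only at `u = (1 - c) / 2`, together
with `b` only at `u = c` -/
private theorem bq_orth {a b c u : ℝ} (hc0 : 1 / 2 ≤ c) (h0 : 0 ≤ u) (h1 : u ≤ 1)
    (k1 : a = 0 ∨ a + b = 1 ∨ u = (1 - c) / 2) (k2 : b = 0 ∨ a + b = 1 ∨ u = c)
    (i j : Fin 4) (hij : i ≠ j) (hi : wq a b i ≠ 0) (hj : wq a b j ≠ 0) :
    |(bq u i).1 0| * |(bq u j).1 0| + |(bq u i).1 1| * |(bq u j).1 1| +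
      |(bq u i).1 2| * |(bq u j).1 2| ≤ c := by
  have e1 : a ≠ 0 → 1 - a - b ≠ 0 → |√(cl u)| ≤ c := by
    intro ha hb
    rw [abs_of_nonneg (Real.sqrt_nonneg _), cl_of_mem h0 h1]
    rcases k1 with h | h | h
    · exact absurd h ha
    · exact absurd (by linarith) hb
    · rw [h]
      refine Real.sqrt_le_iff.2 ⟨by linarith, by nlinarith⟩
  have e2 : b / 2 ≠ 0 → 1 - a - b ≠ 0 → |√((1 - cl u) / 2)| ≤ c := by
    intro ha hb
    rw [abs_of_nonneg (Real.sqrt_nonneg _), cl_of_mem h0 h1]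
    rcases k2 with h | h | h
    · exact absurd (by rw [h]; ring) ha
    · exact absurd (by linarith) hb
    · rw [h]
      refine Real.sqrt_le_iff.2 ⟨by linarith, by nlinarith⟩
  rcases fin4 i with rfl | rfl | rfl | rfl <;> rcases fin4 j with rfl | rfl | rfl | rfl
  · exact absurd rfl hij
  · show |(1 : ℝ)| * |(0 : ℝ)| + |(0 : ℝ)| * |(1 : ℝ)| + |(0 : ℝ)| * |(0 : ℝ)| ≤ c
    simp
    linarith
  · show |(1 : ℝ)| * |(0 : ℝ)| + |(0 : ℝ)| * |(0 : ℝ)| + |(0 : ℝ)| * |(1 : ℝ)| ≤ c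
    simp
    linarith
  · show |(1 : ℝ)| * |√(cl u)| + |(0 : ℝ)| * |√((1 - cl u) / 2)| +
      |(0 : ℝ)| * |√((1 - cl u) / 2)| ≤ c
    rw [abs_one, abs_zero, one_mul, zero_mul, add_zero, add_zero]
    exact e1 hi hj
  · show |(0 : ℝ)| * |(1 : ℝ)| + |(1 : ℝ)| * |(0 : ℝ)| + |(0 : ℝ)| * |(0 : ℝ)| ≤ c
    simp
    linarith
  · exact absurd rfl hij
  · show |(0 : ℝ)| * |(0 : ℝ)| + |(1 : ℝ)| * |(0 : ℝ)| + |(0 : ℝ)| * |(1 : ℝ)| ≤ c
    simp
    linarith
  · show |(0 : ℝ)| * |√(cl u)| + |(1 : ℝ)| * |√((1 - cl u) / 2)| +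
      |(0 : ℝ)| * |√((1 - cl u) / 2)| ≤ c
    rw [abs_one, abs_zero, one_mul, zero_mul, zero_mul, add_zero, zero_add]
    exact e2 hi hj
  · show |(0 : ℝ)| * |(1 : ℝ)| + |(0 : ℝ)| * |(0 : ℝ)| + |(1 : ℝ)| * |(0 : ℝ)| ≤ c
    simp
    linarith
  · show |(0 : ℝ)| * |(0 : ℝ)| + |(0 : ℝ)| * |(1 : ℝ)| + |(1 : ℝ)| * |(0 : ℝ)| ≤ c
    simp
    linarith
  · exact absurd rfl hij
  · show |(0 : ℝ)| * |√(cl u)| + |(0 : ℝ)| * |√((1 - cl u) / 2)| +
      |(1 : ℝ)| * |√((1 - cl u) / 2)| ≤ c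
    rw [abs_one, abs_zero, one_mul, zero_mul, zero_mul, zero_add, zero_add]
    exact e2 hi hj
  · show |√(cl u)| * |(1 : ℝ)| + |√((1 - cl u) / 2)| * |(0 : ℝ)| +
      |√((1 - cl u) / 2)| * |(0 : ℝ)| ≤ c
    rw [abs_one, abs_zero, mul_one, mul_zero, add_zero, add_zero]
    exact e1 hj hi
  · show |√(cl u)| * |(0 : ℝ)| + |√((1 - cl u) / 2)| * |(1 : ℝ)| +
      |√((1 - cl u) / 2)| * |(0 : ℝ)| ≤ c
    rw [abs_one, abs_zero, mul_one, mul_zero, mul_zero, add_zero, zero_add]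
    exact e2 hj hi
  · show |√(cl u)| * |(0 : ℝ)| + |√((1 - cl u) / 2)| * |(0 : ℝ)| +
      |√((1 - cl u) / 2)| * |(1 : ℝ)| ≤ c
    rw [abs_one, abs_zero, mul_one, mul_zero, mul_zero, zero_add, zero_add]
    exact e2 hj hi
  · exact absurd rfl hij

/-- admissible parameters -/
structure Adm (c a b u : ℝ) : Prop where
  ha : 0 ≤ a
  hb : 0 ≤ b
  hab : a + b ≤ 1
  hu0 : (1 - c) / 2 ≤ u
  hu1 : u ≤ c
  k1 : a = 0 ∨ a + b = 1 ∨ u = (1 - c) / 2
  k2 : b = 0 ∨ a + b = 1 ∨ u = c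

/-- the members of the loop -/
noncomputable def mk5 {r : ℝ} (hr0 : 0 ≤ r) (hr : r ≤ Real.pi) (hc : 1 / 2 ≤ Real.cos r)
    (a b u : ℝ) (h : Adm (Real.cos r) a b u) : AVR (geo 2) r :=
  mkM hr0 hr (bq u) (wq a b)
    (by
      intro i
      rcases fin4 i with rfl | rfl | rfl | rfl
      · exact h.ha
      · exact div_nonneg h.hb (by norm_num)
      · exact div_nonneg h.hb (by norm_num)
      · show 0 ≤ 1 - a - b
        linarith [h.hab])
    (by
      rw [Fin.sum_univ_four]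
      show a + b / 2 + b / 2 + (1 - a - b) = 1
      ring)
    (bq_self (by linarith) h.hu0 h.hu1 (h.hu1.trans (Real.cos_le_one r))
      (le_trans (by linarith [Real.cos_le_one r]) h.hu0))
    (bq_orth hc (le_trans (by linarith [Real.cos_le_one r]) h.hu0)
      (h.hu1.trans (Real.cos_le_one r)) h.k1 h.k2)

private theorem mk5_w {r : ℝ} (hr0 : 0 ≤ r) (hr : r ≤ Real.pi) (hc : 1 / 2 ≤ Real.cos r)
    (a b u : ℝ) (h : Adm (Real.cos r) a b u) :
    (mk5 hr0 hr hc a b u h).w = wM (bq u) (wq a b) := rfl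

private theorem mk5_ext {r : ℝ} (hr0 : 0 ≤ r) (hr : r ≤ Real.pi) (hc : 1 / 2 ≤ Real.cos r)
    {a b u a' b' u' : ℝ} {h h'} (e1 : a = a') (e2 : b = b') (e3 : a + b = 1 ∨ u = u') :
    mk5 hr0 hr hc a b u h = mk5 hr0 hr hc a' b' u' h' := by
  subst e1
  subst e2
  rcases e3 with h3 | h3
  · apply AVR.ext
    rw [mk5_w, mk5_w]
    unfold wM
    refine Finset.sum_congr rfl fun q hq => ?_
    clear hq
    obtain ⟨i, v⟩ := q
    rcases fin4 i with rfl | rfl | rfl | rfl
    · rfl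
    · rfl
    · rfl
    · have h0 : wq a b 3 = 0 := by
        show 1 - a - b = 0
        linarith
      simp only [h0, zero_div, Finsupp.single_zero]
  · subst h3
    rfl

private theorem cont_mk5 {r : ℝ} (hr0 : 0 ≤ r) (hr : r ≤ Real.pi) (hc : 1 / 2 ≤ Real.cos r)
    (a b u : ℝ → ℝ) (h : ∀ t, Adm (Real.cos r) (a t) (b t) (u t))
    (ka : Continuous a) (kb : Continuous b) (ku : Continuous u) :
    Continuous fun t => mk5 hr0 hr hc (a t) (b t) (u t) (h t) := by
  have hwt : ∀ i : Fin 4, Continuous fun t => wq (a t) (b t) i := by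
    intro i
    rcases fin4 i with rfl | rfl | rfl | rfl
    · exact ka
    · exact kb.div_const _
    · exact kb.div_const _
    · exact (continuous_const.sub ka).sub kb
  have hw0 : ∀ t, ∀ i : Fin 4, 0 ≤ wq (a t) (b t) i := by
    intro t i
    rcases fin4 i with rfl | rfl | rfl | rfl
    · exact (h t).ha
    · exact div_nonneg (h t).hb (by norm_num)
    · exact div_nonneg (h t).hb (by norm_num)
    · show 0 ≤ 1 - a t - b t
      linarith [(h t).hab]
  refine cont_fam (ι := Fin 4 × (Fin 3 → Bool)) (fun t q => sg q.2 (bq (u t) q.1))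
    (fun t q => wq (a t) (b t) q.1 / 8) ?_ ?_ ?_ ?_ _ (fun t => rfl)
  · intro q
    exact (sg_cont q.2).comp (bq_cont ku q.1)
  · intro q
    exact (hwt q.1).div_const _
  · intro t q
    exact div_nonneg (hw0 t q.1) (by norm_num)
  · intro t
    rw [Fintype.sum_prod_type]
    simp only [Finset.sum_const, Finset.card_univ, nsmul_eq_mul]
    have hcard : Fintype.card (Fin 3 → Bool) = 8 := by
      simp
    rw [hcard, Fin.sum_univ_four]
    show ((8 : ℕ) : ℝ) * (a t / 8) + ((8 : ℕ) : ℝ) * (b t / 2 / 8) +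
      ((8 : ℕ) : ℝ) * (b t / 2 / 8) + ((8 : ℕ) : ℝ) * ((1 - a t - b t) / 8) = 1
    push_cast
    ring

private theorem q5_sg (e : Fin 3 → Bool) (x : Sph 2) : q5 (sg e x) = q5 x := by
  unfold q5
  simp only [sg_sq]

private theorem t5_sg (e : Fin 3 → Bool) (x : Sph 2) : t5 (sg e x) = t5 x := by
  unfold t5
  simp only [sg_sq]

private theorem ri_q5 {a b u : ℝ} (h0 : 0 ≤ u) (h1 : u ≤ 1) :
    ri q5 (wM (bq u) (wq a b)) = (1 - a - b) * (u * ((1 - u) / 2) ^ 2) := by
  rw [ri_wM q5_sg, Fin.sum_univ_four]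
  have e0 : q5 (bq u 0) = 0 := by
    show (1 : ℝ) ^ 2 * 0 ^ 2 * 0 ^ 2 = 0
    norm_num
  have e1 : q5 (bq u 1) = 0 := by
    show (0 : ℝ) ^ 2 * 1 ^ 2 * 0 ^ 2 = 0
    norm_num
  have e2 : q5 (bq u 2) = 0 := by
    show (0 : ℝ) ^ 2 * 0 ^ 2 * 1 ^ 2 = 0
    norm_num
  have e3 : q5 (bq u 3) = u * ((1 - u) / 2) ^ 2 := by
    show (√(cl u)) ^ 2 * (√((1 - cl u) / 2)) ^ 2 * (√((1 - cl u) / 2)) ^ 2 = _
    rw [cl_of_mem h0 h1, Real.sq_sqrt h0, Real.sq_sqrt (by linarith)]
    ring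
  rw [e0, e1, e2, e3]
  show a * 0 + b / 2 * 0 + b / 2 * 0 + (1 - a - b) * _ = _
  ring

private theorem ri_t5 {a b u : ℝ} (h0 : 0 ≤ u) (h1 : u ≤ 1) :
    ri t5 (wM (bq u) (wq a b)) = a + (1 - a - b) * u - 1 / 3 := by
  rw [ri_wM t5_sg, Fin.sum_univ_four]
  have e0 : t5 (bq u 0) = 2 / 3 := by
    show (1 : ℝ) ^ 2 - 1 / 3 = 2 / 3
    norm_num
  have e1 : t5 (bq u 1) = -(1 / 3) := by
    show (0 : ℝ) ^ 2 - 1 / 3 = -(1 / 3)
    norm_num
  have e2 : t5 (bq u 2) = -(1 / 3) := by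
    show (0 : ℝ) ^ 2 - 1 / 3 = -(1 / 3)
    norm_num
  have e3 : t5 (bq u 3) = u - 1 / 3 := by
    show (√(cl u)) ^ 2 - 1 / 3 = _
    rw [cl_of_mem h0 h1, Real.sq_sqrt h0]
  rw [e0, e1, e2, e3]
  show a * (2 / 3) + b / 2 * -(1 / 3) + b / 2 * -(1 / 3) + (1 - a - b) * _ = _
  ring

/-! ## The inequalities along the loop -/

/-- on the single orbits: `h = η - d² (1 - d) / 4` with `u = 1 / 3 + d` -/
private theorem single_h (d : ℝ) :
    (1 / 3 + d) * ((1 - (1 / 3 + d)) / 2) ^ 2 = 1 / 27 - d ^ 2 * (1 - d) / 4 := by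
  ring

private theorem eta_pos {c : ℝ} (hc : 3 * c ^ 2 < 1) : 0 < 1 / 27 - e5 c := by
  unfold e5
  nlinarith [sq_nonneg (c ^ 2 - 1 / 3), sq_nonneg c]

private theorem eta_le {c : ℝ} (hc : 3 * c ^ 2 < 1) : 1 / 27 - e5 c ≤ 1 / 54 := by
  unfold e5
  have h1 : 0 ≤ c ^ 2 * (1 - c ^ 2) := mul_nonneg (sq_nonneg _) (by linarith)
  linarith

private theorem e5_pos {c : ℝ} (hc : 3 * c ^ 2 < 1) : 0 < e5 c := by
  unfold e5
  have h1 : 0 ≤ c ^ 2 * (1 - c ^ 2) := mul_nonneg (sq_nonneg _) (by linarith)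
  linarith

/-- the single orbits away from the cube -/
private theorem far {c d : ℝ} (hc : 3 * c ^ 2 < 1) (h1 : 1 / 27 - e5 c ≤ |d|) (h2 : d ≤ 1) :
    (1 / 3 + d) * ((1 - (1 / 3 + d)) / 2) ^ 2 - e5 c < |d| := by
  rw [single_h]
  have h0 := eta_pos hc
  have hd : 0 < |d| := lt_of_lt_of_le h0 h1
  have hd2 : 0 < d ^ 2 := by
    have := abs_pos.1 hd
    positivity
  have h3 : 0 ≤ d ^ 2 * (1 - d) := mul_nonneg hd2.le (by linarith)
  rcases eq_or_lt_of_le h2 with h4 | h4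
  · subst h4
    have h5 := eta_le hc
    rw [abs_one]
    linarith
  · have h6 : 0 < d ^ 2 * (1 - d) := mul_pos hd2 (by linarith)
    linarith

/-- single orbit joined with the first axis -/
private theorem mix0 {c a : ℝ} (hc : 3 * c ^ 2 < 1) (hc0 : 1 / 2 ≤ c) :
    (1 - a - 0) * ((1 - c) / 2 * ((1 - (1 - c) / 2) / 2) ^ 2) - e5 c <
      |a + (1 - a - 0) * ((1 - c) / 2) - 1 / 3| := by
  set s : ℝ := (1 - c) / 2 with hs
  have hs1 : s ≤ c ^ 2 := by nlinarith
  have hs0 : 0 ≤ s := by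
    have : c < 1 := by nlinarith
    linarith
  have hη := eta_pos hc
  have h1 : s * (1 - s) ≤ c ^ 2 * (1 - c ^ 2) := by nlinarith
  have h2 : s * (1 - s) ≤ 1 / 4 := by nlinarith [sq_nonneg (s - 1 / 2)]
  have h2' : 0 ≤ s * (1 - s) := mul_nonneg hs0 (by nlinarith)
  set T : ℝ := a + (1 - a - 0) * s - 1 / 3 with hT
  have h3 : (1 - a - 0) * (s * ((1 - s) / 2) ^ 2) =
      s * (1 - s) / 6 - T * (s * (1 - s)) / 4 := by
    rw [hT]
    ring
  have h4 : -(T * (s * (1 - s)) / 4) ≤ |T| / 16 := by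
    have h5 : -T ≤ |T| := neg_le_abs T
    have h6 : 0 ≤ |T| := abs_nonneg T
    nlinarith
  have h7 : c ^ 2 * (1 - c ^ 2) / 6 = 2 * e5 c - 1 / 27 := by
    unfold e5
    ring
  have h8 := abs_nonneg T
  rw [h3]
  linarith

/-- single orbit joined with the other two axes -/
private theorem mix1 {c b : ℝ} (hc : 3 * c ^ 2 < 1) (hc0 : 1 / 2 ≤ c) :
    (1 - 0 - b) * (c * ((1 - c) / 2) ^ 2) - e5 c < |0 + (1 - 0 - b) * c - 1 / 3| := by
  have hη := eta_pos hc
  have hc1 : c < 1 := by nlinarith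
  set T : ℝ := 0 + (1 - 0 - b) * c - 1 / 3 with hT
  have h3 : (1 - 0 - b) * (c * ((1 - c) / 2) ^ 2) = (1 - c) ^ 2 / 12 + T * (1 - c) ^ 2 / 4 := by
    rw [hT]
    ring
  have h9 : (1 - c) / 2 ≤ c ^ 2 := by nlinarith
  have h10 : (1 - c) ^ 2 / 12 ≤ c ^ 2 * (1 - c ^ 2) / 6 := by
    have h11 : (1 - c) ^ 2 / 4 ≤ c ^ 2 * c ^ 2 := by
      have := mul_le_mul h9 h9 (by linarith) (sq_nonneg c)
      nlinarith
    nlinarith [sq_nonneg c]
  have h12 : (1 - c) ^ 2 ≤ 1 / 4 := by nlinarith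
  have h4 : T * (1 - c) ^ 2 / 4 ≤ |T| / 16 := by
    have h5 : T ≤ |T| := le_abs_self T
    have h6 : 0 ≤ |T| := abs_nonneg T
    nlinarith [sq_nonneg (1 - c)]
  have h7 : c ^ 2 * (1 - c ^ 2) / 6 = 2 * e5 c - 1 / 27 := by
    unfold e5
    ring
  have h8 := abs_nonneg T
  rw [h3]
  linarith

/-! ## The four paths -/

/-- a loop of measures on the two-sphere, invariant under all sign changes and under the swap of
the last two coordinates -/
theorem exists_loop5 {r : ℝ} (hr0 : 0 ≤ r) (hr : r ≤ Real.pi) (hc0 : 1 / 2 ≤ Real.cos r)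
    (hc : 3 * Real.cos r ^ 2 < 1) :
    ∃ pth : Fin 4 → ℝ → AVR (geo 2) r, (∀ i, Continuous (pth i)) ∧
      (∀ i t j x, (pth i t).w (flip j x) = (pth i t).w x) ∧
      (∀ i t x, (pth i t).w (swp x) = (pth i t).w x) ∧
      (∀ i, pth i 1 = pth (i + 1) 0) ∧
      (∀ t, e5 (Real.cos r) < ri q5 (pth 0 t).w) ∧
      |ri q5 (pth 0 0).w - e5 (Real.cos r)| < ri t5 (pth 0 0).w ∧
      |ri q5 (pth 0 1).w - e5 (Real.cos r)| < -ri t5 (pth 0 1).w ∧
      (∀ i, i ≠ 0 → ∀ t, ri q5 (pth i t).w - e5 (Real.cos r) < |ri t5 (pth i t).w|) := by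
  set c : ℝ := Real.cos r with hcdef
  set η : ℝ := 1 / 27 - e5 c with hη
  have η0 : 0 < η := eta_pos hc
  have η1 : η ≤ 1 / 54 := eta_le hc
  have c1 : c < 1 := by nlinarith
  have s1 : (1 - c) / 2 ≤ 1 / 4 := by linarith
  have s0 : 0 < (1 - c) / 2 := by linarith
  -- parameters
  have A0 : ∀ t, Adm c 0 0 (1 / 3 + η - 2 * η * cl t) := fun t => by
    have k0 := cl_nonneg t
    have k1 := cl_le_one t
    have k2 : 0 ≤ η * cl t := mul_nonneg η0.le k0
    have k3 : η * cl t ≤ η := by nlinarith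
    exact ⟨le_refl _, le_refl _, by norm_num, by linarith, by linarith, Or.inl rfl, Or.inl rfl⟩
  have A1 : ∀ t, Adm c (max 0 (2 * cl t - 1)) 0
      ((1 - c) / 2 + (1 / 3 - η - (1 - c) / 2) * max 0 (1 - 2 * cl t)) := fun t => by
    have k0 := cl_nonneg t
    have k1 := cl_le_one t
    have m0 : 0 ≤ max 0 (1 - 2 * cl t) := le_max_left _ _
    have m1 : max 0 (1 - 2 * cl t) ≤ 1 := max_le (by norm_num) (by linarith)
    have m2 : 0 ≤ max 0 (2 * cl t - 1) := le_max_left _ _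
    have m3 : max 0 (2 * cl t - 1) ≤ 1 := max_le (by norm_num) (by linarith)
    have p0 : 0 ≤ 1 / 3 - η - (1 - c) / 2 := by linarith
    have p1 : 0 ≤ (1 / 3 - η - (1 - c) / 2) * max 0 (1 - 2 * cl t) := mul_nonneg p0 m0
    have p2 : (1 / 3 - η - (1 - c) / 2) * max 0 (1 - 2 * cl t) ≤ 1 / 3 - η - (1 - c) / 2 := by
      nlinarith
    refine ⟨m2, le_refl _, by linarith, by linarith, by linarith, ?_, Or.inl rfl⟩
    rcases le_total (cl t) (1 / 2) with h | h
    · left
      exact max_eq_left (by linarith)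
    · right; right
      rw [max_eq_left (by linarith : 1 - 2 * cl t ≤ 0)]
      ring
  have A2 : ∀ t, Adm c (1 - cl t) (cl t) ((1 - c) / 2) := fun t => by
    have k0 := cl_nonneg t
    have k1 := cl_le_one t
    exact ⟨by linarith, k0, by linarith, le_refl _, by linarith, Or.inr (Or.inl (by ring)),
      Or.inr (Or.inl (by ring))⟩
  have A3 : ∀ t, Adm c 0 (max 0 (1 - 2 * cl t))
      (c + (1 / 3 + η - c) * max 0 (2 * cl t - 1)) := fun t => by
    have k0 := cl_nonneg t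
    have k1 := cl_le_one t
    have m0 : 0 ≤ max 0 (1 - 2 * cl t) := le_max_left _ _
    have m1 : max 0 (1 - 2 * cl t) ≤ 1 := max_le (by norm_num) (by linarith)
    have m2 : 0 ≤ max 0 (2 * cl t - 1) := le_max_left _ _
    have m3 : max 0 (2 * cl t - 1) ≤ 1 := max_le (by norm_num) (by linarith)
    have p0 : 0 ≤ c - (1 / 3 + η) := by linarith
    have p1 : 0 ≤ (c - (1 / 3 + η)) * max 0 (2 * cl t - 1) := mul_nonneg p0 m2
    have p2 : (c - (1 / 3 + η)) * max 0 (2 * cl t - 1) ≤ c - (1 / 3 + η) := by nlinarith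
    refine ⟨le_refl _, m0, by linarith, by linarith, by linarith, Or.inl rfl, ?_⟩
    rcases le_total (cl t) (1 / 2) with h | h
    · right; right
      rw [max_eq_left (by linarith : 2 * cl t - 1 ≤ 0)]
      ring
    · left
      exact max_eq_left (by linarith)
  have kcl := cl_continuous
  have C0 := cont_mk5 hr0 hr hc0 (fun _ => 0) (fun _ => 0)
    (fun t => 1 / 3 + η - 2 * η * cl t) A0 continuous_const continuous_const
    (continuous_const.sub (continuous_const.mul kcl))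
  have kM : Continuous fun t => max 0 (1 - 2 * cl t) :=
    continuous_const.max (continuous_const.sub (continuous_const.mul kcl))
  have kN : Continuous fun t => max 0 (2 * cl t - 1) :=
    continuous_const.max ((continuous_const.mul kcl).sub continuous_const)
  have C1 := cont_mk5 hr0 hr hc0 (fun t => max 0 (2 * cl t - 1)) (fun _ => 0)
    (fun t => (1 - c) / 2 + (1 / 3 - η - (1 - c) / 2) * max 0 (1 - 2 * cl t)) A1 kN
    continuous_const (continuous_const.add (continuous_const.mul kM))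
  have C2 := cont_mk5 hr0 hr hc0 (fun t => 1 - cl t) (fun t => cl t)
    (fun _ => (1 - c) / 2) A2 (continuous_const.sub kcl) kcl continuous_const
  have C3 := cont_mk5 hr0 hr hc0 (fun _ => 0) (fun t => max 0 (1 - 2 * cl t))
    (fun t => c + (1 / 3 + η - c) * max 0 (2 * cl t - 1)) A3 continuous_const kM
    (continuous_const.add (continuous_const.mul kN))
  have hfix : ∀ (a b u : ℝ) (h : Adm c a b u) (j : Fin 3) (x : Sph 2),
      (mk5 hr0 hr hc0 a b u h).w (flip j x) = (mk5 hr0 hr hc0 a b u h).w x :=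
    fun a b u h j x => wM_flip j _ _ x
  have hsw : ∀ (a b u : ℝ) (h : Adm c a b u) (x : Sph 2),
      (mk5 hr0 hr hc0 a b u h).w (swp x) = (mk5 hr0 hr hc0 a b u h).w x :=
    fun a b u h x => wM_swp (bq_swp u) (wq_swp a b) x
  have u0 : ∀ {a b u : ℝ}, Adm c a b u → 0 ≤ u := fun h => s0.le.trans h.hu0
  have u1 : ∀ {a b u : ℝ}, Adm c a b u → u ≤ 1 := fun h => h.hu1.trans c1.le
  have hq : ∀ (a b u : ℝ) (h : Adm c a b u),
      ri q5 (mk5 hr0 hr hc0 a b u h).w = (1 - a - b) * (u * ((1 - u) / 2) ^ 2) :=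
    fun a b u h => ri_q5 (u0 h) (u1 h)
  have ht : ∀ (a b u : ℝ) (h : Adm c a b u),
      ri t5 (mk5 hr0 hr hc0 a b u h).w = a + (1 - a - b) * u - 1 / 3 :=
    fun a b u h => ri_t5 (u0 h) (u1 h)
  refine ⟨![fun t => mk5 hr0 hr hc0 0 0 (1 / 3 + η - 2 * η * cl t) (A0 t),
    fun t => mk5 hr0 hr hc0 (max 0 (2 * cl t - 1)) 0
      ((1 - c) / 2 + (1 / 3 - η - (1 - c) / 2) * max 0 (1 - 2 * cl t)) (A1 t),
    fun t => mk5 hr0 hr hc0 (1 - cl t) (cl t) ((1 - c) / 2) (A2 t),
    fun t => mk5 hr0 hr hc0 0 (max 0 (1 - 2 * cl t))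
      (c + (1 / 3 + η - c) * max 0 (2 * cl t - 1)) (A3 t)], ?_, ?_, ?_, ?_, ?_, ?_, ?_, ?_⟩
  · intro i
    rcases fin4 i with rfl | rfl | rfl | rfl
    · exact C0
    · exact C1
    · exact C2
    · exact C3
  · intro i t j x
    rcases fin4 i with rfl | rfl | rfl | rfl
    · exact hfix _ _ _ (A0 t) j x
    · exact hfix _ _ _ (A1 t) j x
    · exact hfix _ _ _ (A2 t) j x
    · exact hfix _ _ _ (A3 t) j x
  · intro i t x
    rcases fin4 i with rfl | rfl | rfl | rfl
    · exact hsw _ _ _ (A0 t) x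
    · exact hsw _ _ _ (A1 t) x
    · exact hsw _ _ _ (A2 t) x
    · exact hsw _ _ _ (A3 t) x
  · intro i
    rcases fin4 i with rfl | rfl | rfl | rfl
    · show mk5 hr0 hr hc0 _ _ _ (A0 1) = mk5 hr0 hr hc0 _ _ _ (A1 0)
      refine mk5_ext hr0 hr hc0 ?_ rfl (Or.inr ?_)
      · rw [cl_zero, mul_zero, zero_sub, max_eq_left (by norm_num)]
      · rw [cl_zero, cl_one, mul_zero, sub_zero, max_eq_right (by norm_num)]
        ring
    · show mk5 hr0 hr hc0 _ _ _ (A1 1) = mk5 hr0 hr hc0 _ _ _ (A2 0)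
      refine mk5_ext hr0 hr hc0 ?_ ?_ (Or.inr ?_)
      · rw [cl_zero, cl_one, max_eq_right (by norm_num)]
        norm_num
      · rw [cl_zero]
      · rw [cl_one, max_eq_left (by norm_num)]
        ring
    · show mk5 hr0 hr hc0 _ _ _ (A2 1) = mk5 hr0 hr hc0 _ _ _ (A3 0)
      refine mk5_ext hr0 hr hc0 ?_ ?_ (Or.inl ?_)
      · rw [cl_one, sub_self]
      · rw [cl_zero, cl_one, mul_zero, sub_zero, max_eq_right (by norm_num)]
      · ring
    · show mk5 hr0 hr hc0 _ _ _ (A3 1) = mk5 hr0 hr hc0 _ _ _ (A0 0)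
      refine mk5_ext hr0 hr hc0 rfl ?_ (Or.inr ?_)
      · rw [cl_one, max_eq_left (by norm_num)]
      · rw [cl_zero, cl_one, max_eq_right (by norm_num)]
        ring
  · intro t
    show e5 c < ri q5 (mk5 hr0 hr hc0 _ _ _ (A0 t)).w
    rw [hq]
    have k0 := cl_nonneg t
    have k1 := cl_le_one t
    have e : 1 / 3 + η - 2 * η * cl t = 1 / 3 + (η - 2 * η * cl t) := by ring
    rw [e, single_h]
    set d : ℝ := η - 2 * η * cl t with hd
    have d1 : d ≤ η := by nlinarith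
    have d2 : -η ≤ d := by nlinarith
    have d3 : d ^ 2 ≤ η ^ 2 := by nlinarith
    have d4 : d ^ 2 * (1 - d) ≤ η ^ 2 * 2 := by nlinarith [sq_nonneg d]
    have d5 : η ^ 2 ≤ η * (1 / 54) := by nlinarith
    have : e5 c = 1 / 27 - η := by rw [hη]; ring
    rw [this]
    linarith
  · show |ri q5 (mk5 hr0 hr hc0 _ _ _ (A0 0)).w - e5 c| < ri t5 (mk5 hr0 hr hc0 _ _ _ (A0 0)).w
    rw [hq, ht, cl_zero]
    have e : 1 / 3 + η - 2 * η * 0 = 1 / 3 + η := by ring
    rw [e, single_h]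
    have h2 : 0 < η ^ 2 * (1 - η) := mul_pos (by positivity) (by linarith)
    have h3 : η ^ 2 * (1 - η) ≤ η ^ 2 := by nlinarith [sq_nonneg η]
    have d5 : η ^ 2 ≤ η * (1 / 54) := by nlinarith
    have : e5 c = 1 / 27 - η := by rw [hη]; ring
    rw [this, abs_lt]
    constructor <;> linarith
  · show |ri q5 (mk5 hr0 hr hc0 _ _ _ (A0 1)).w - e5 c| < -ri t5 (mk5 hr0 hr hc0 _ _ _ (A0 1)).w
    rw [hq, ht, cl_one]
    have e : 1 / 3 + η - 2 * η * 1 = 1 / 3 + -η := by ring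
    rw [e, single_h]
    have h2 : 0 < (-η) ^ 2 * (1 - -η) := mul_pos (by rw [neg_sq]; positivity) (by linarith)
    have h3 : (-η) ^ 2 * (1 - -η) ≤ η ^ 2 * 2 := by nlinarith [sq_nonneg η]
    have d5 : η ^ 2 ≤ η * (1 / 54) := by nlinarith
    have : e5 c = 1 / 27 - η := by rw [hη]; ring
    rw [this, abs_lt]
    constructor <;> linarith
  · intro i hi t
    have k0 := cl_nonneg t
    have k1 := cl_le_one t
    rcases fin4 i with rfl | rfl | rfl | rfl
    · exact absurd rfl hi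
    · show ri q5 (mk5 hr0 hr hc0 _ _ _ (A1 t)).w - e5 c < |ri t5 (mk5 hr0 hr hc0 _ _ _ (A1 t)).w|
      rw [hq, ht]
      rcases le_total (cl t) (1 / 2) with h | h
      · rw [max_eq_left (by linarith : 2 * cl t - 1 ≤ 0),
          max_eq_right (by linarith : 0 ≤ 1 - 2 * cl t)]
        set d : ℝ := (1 - c) / 2 + (1 / 3 - η - (1 - c) / 2) * (1 - 2 * cl t) - 1 / 3 with hd
        have e : (1 - c) / 2 + (1 / 3 - η - (1 - c) / 2) * (1 - 2 * cl t) = 1 / 3 + d := by
          rw [hd]; ring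
        have d1 : d ≤ -η := by
          have p0 : 0 ≤ 1 / 3 - η - (1 - c) / 2 := by linarith
          rw [hd]
          nlinarith
        have hf := far (d := d) hc (by rw [abs_of_nonpos (by linarith)]; linarith) (by linarith)
        rw [e]
        have e1 : (0 : ℝ) + (1 - 0 - 0) * (1 / 3 + d) - 1 / 3 = d := by ring
        have e2 : (1 - 0 - 0 : ℝ) * ((1 / 3 + d) * ((1 - (1 / 3 + d)) / 2) ^ 2) =
          (1 / 3 + d) * ((1 - (1 / 3 + d)) / 2) ^ 2 := by ring
        rw [e1, e2]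
        exact hf
      · rw [max_eq_left (by linarith : 1 - 2 * cl t ≤ 0), mul_zero, add_zero]
        exact mix0 hc hc0
    · show ri q5 (mk5 hr0 hr hc0 _ _ _ (A2 t)).w - e5 c < |ri t5 (mk5 hr0 hr hc0 _ _ _ (A2 t)).w|
      rw [hq]
      have e : 1 - (1 - cl t) - cl t = 0 := by ring
      rw [e, zero_mul]
      have h1 := e5_pos hc
      have h2 := abs_nonneg (ri t5 (mk5 hr0 hr hc0 _ _ _ (A2 t)).w)
      linarith
    · show ri q5 (mk5 hr0 hr hc0 _ _ _ (A3 t)).w - e5 c < |ri t5 (mk5 hr0 hr hc0 _ _ _ (A3 t)).w|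
      rw [hq, ht]
      rcases le_total (cl t) (1 / 2) with h | h
      · rw [max_eq_left (by linarith : 2 * cl t - 1 ≤ 0), mul_zero, add_zero]
        exact mix1 hc hc0
      · rw [max_eq_left (by linarith : 1 - 2 * cl t ≤ 0),
          max_eq_right (by linarith : 0 ≤ 2 * cl t - 1)]
        set d : ℝ := c + (1 / 3 + η - c) * (2 * cl t - 1) - 1 / 3 with hd
        have e : c + (1 / 3 + η - c) * (2 * cl t - 1) = 1 / 3 + d := by
          rw [hd]; ring
        have d1 : η ≤ d := by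
          have p0 : 0 ≤ c - (1 / 3 + η) := by linarith
          rw [hd]
          nlinarith
        have d2 : d ≤ 1 := by
          have p0 : 0 ≤ c - (1 / 3 + η) := by linarith
          rw [hd]
          nlinarith
        have hf := far (d := d) hc (by rw [abs_of_nonneg (by linarith)]; exact d1) d2
        rw [e]
        have e1 : (0 : ℝ) + (1 - 0 - 0) * (1 / 3 + d) - 1 / 3 = d := by ring
        have e2 : (1 - 0 - 0 : ℝ) * ((1 / 3 + d) * ((1 - (1 / 3 + d)) / 2) ^ 2) =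
          (1 / 3 + d) * ((1 - (1 / 3 + d)) / 2) ^ 2 := by ring
        rw [e1, e2]
        exact hf

end Pool.Agent.H81.AV
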